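import Mathlib

/-!
# A connected graph whose mean subtree order is below the mean size of its connected sets

The question asks whether `μ(G) ≥ av(G)` for every finite connected graph `G`, where `μ(G)` is the
mean order of the subtrees of `G` and `av(G)` the mean size of its connected vertex sets.  The
answer is no.

The graph: a cycle with `9000` vertices `0, 1, ..., 8999`, with a triangle attached at the vertex
`1000` (two new vertices, joined to each other and to the vertex `1000`), with `A` pendant vertices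
attached at the vertex `0` and `A` pendant vertices attached at the vertex `2000`, where `A` is
large.

Sketch.  Because of the pendant vertices, as `A` tends to infinity, `μ - A` and `av - A` tend to the
corresponding averages over the subtrees, respectively the connected sets, of the core graph (cycle
and triangle) which contain both vertices `0` and `2000`.  These sets are complements, in the cycle,
of a (possibly empty) interval of missing vertices which is either in `(0, 2000)` or in
`(2000, 9000)`.  If it does not contain `1000`, the triangle contributes a factor `4` to the number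
of connected sets and a factor `6` to the number of subtrees; so the subtrees favour the long
missing intervals in `(2000, 9000)` more than the connected sets do.  With the threshold
`θ = 6756` the sum of `|S| - θ` is `193604980 > 0` over the connected sets of the core graph
containing `0` and `2000`, and `-159367000 < 0` over its subtrees containing `0` and `2000`.

The file proves: trees are the minimal connected subgraphs; a formula for sums over connected sets
and over subtrees of a graph obtained by gluing two graphs at one vertex (`SS_wedge`); the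
classification of the connected subgraphs of a star and of a cycle which contain a given vertex;
and the numerical estimate.
-/

open Finset Relation

namespace Pool.Agent.Results.MP_589357_co.MeanSubtreeOrderSmaller



/-! ### The invariants -/

/-- number of subtrees of `G` with exactly `k` vertices (a subtree is a subgraph of `G`, not
necessarily induced, which is a tree; subgraphs are different if their vertex sets or their
edge sets differ) -/
noncomputable def numSubtrees {V : Type} (G : SimpleGraph V) (k : ℕ) : ℕ :=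
  {H : G.Subgraph | H.coe.IsTree ∧ H.verts.ncard = k}.ncard

/-- the mean subtree order `μ(G) = (∑ₖ k sₖ(G)) / (∑ₖ sₖ(G))` -/
noncomputable def meanSubtreeOrder {V : Type} [Fintype V] (G : SimpleGraph V) : ℚ :=
  (∑ k ∈ Finset.Icc 1 (Fintype.card V), (k : ℚ) * (numSubtrees G k : ℚ)) /
    ∑ k ∈ Finset.Icc 1 (Fintype.card V), (numSubtrees G k : ℚ)

open Classical in
/-- the connected sets of `G`: nonempty sets of vertices inducing a connected subgraph -/
noncomputable def connectedSets {V : Type} [Fintype V] (G : SimpleGraph V) :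
    Finset (Finset V) :=
  Finset.univ.filter (fun S => S.Nonempty ∧ (G.induce (S : Set V)).Connected)

/-- `av(G)`: the average size of the connected sets of `G` -/
noncomputable def averageConnectedSet {V : Type} [Fintype V] (G : SimpleGraph V) : ℚ :=
  (∑ S ∈ connectedSets G, (S.card : ℚ)) / ((connectedSets G).card : ℚ)

/-! ### Subgraphs, connectivity and trees -/

section basics
variable {V : Type*} {G : SimpleGraph V}

lemma reach_iff (H : G.Subgraph) (u v : V) (hu : u ∈ H.verts) (hv : v ∈ H.verts) :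
    H.coe.Reachable ⟨u, hu⟩ ⟨v, hv⟩ ↔ ReflTransGen H.Adj u v := by
  rw [SimpleGraph.reachable_iff_reflTransGen]
  constructor
  · intro h
    exact ReflTransGen.lift (fun a : H.verts => (a : V)) (fun a b hab => hab) _ _ h
  · intro h
    have key : ∀ w, ReflTransGen H.Adj u w → ∀ hw : w ∈ H.verts,
        ReflTransGen H.coe.Adj ⟨u, hu⟩ ⟨w, hw⟩ := by
      intro w hw
      induction hw with
      | refl => intro _; exact ReflTransGen.refl
      | tail hab hbc ih =>
        intro hw
        exact ReflTransGen.tail (ih (H.edge_vert hbc)) (by simpa using hbc)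
    exact key v h hv

lemma conn_iff (H : G.Subgraph) : H.Connected ↔ H.verts.Nonempty ∧
    ∀ u ∈ H.verts, ∀ v ∈ H.verts, ReflTransGen H.Adj u v := by
  rw [SimpleGraph.Subgraph.connected_iff, and_comm, SimpleGraph.Subgraph.preconnected_iff]
  refine and_congr_right fun _ => ?_
  constructor
  · intro h u hu v hv
    exact (reach_iff H u v hu hv).1 (h ⟨u, hu⟩ ⟨v, hv⟩)
  · rintro h ⟨u, hu⟩ ⟨v, hv⟩
    exact (reach_iff H u v hu hv).2 (h u hu v hv)

lemma conn_of_root (H : G.Subgraph) (r : V) (hr : r ∈ H.verts)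
    (h : ∀ u ∈ H.verts, ReflTransGen H.Adj u r) : H.Connected := by
  rw [conn_iff]
  refine ⟨⟨r, hr⟩, fun u hu v hv => (h u hu).trans ?_⟩
  have hs : Std.Symm H.Adj := ⟨fun a b hab => hab.symm⟩
  exact (ReflTransGen.stdSymm (r := H.Adj)).symm _ _ (h v hv)

lemma crossing_rtg (r : V → V → Prop) (K : Set V) {u v : V} (huK : u ∈ K) (hvK : v ∉ K)
    (h : ReflTransGen r u v) : ∃ a b, a ∈ K ∧ b ∉ K ∧ r a b := by
  induction h with
  | refl => exact absurd huK hvK
  | tail hab hbc ih =>
    rename_i b c
    by_cases hb : b ∈ K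
    · exact ⟨b, c, hb, hvK, hbc⟩
    · exact ih hb

lemma crossing {H : G.Subgraph} (hc : H.Connected) (K : Set V) {u v : V} (hu : u ∈ H.verts)
    (huK : u ∈ K) (hv : v ∈ H.verts) (hvK : v ∉ K) : ∃ a b, a ∈ K ∧ b ∉ K ∧ H.Adj a b :=
  crossing_rtg _ K huK hvK (((conn_iff H).1 hc).2 u hu v hv)

/-- minimally connected subgraph -/
def IsMin (H : G.Subgraph) : Prop :=
  H.Connected ∧ ∀ H' : G.Subgraph, H' ≤ H → H'.verts = H.verts → H'.Connected → H' = H

lemma isTree_iff_isMin (H : G.Subgraph) : H.coe.IsTree ↔ IsMin H := by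
  rw [SimpleGraph.isTree_iff_minimal_connected]
  constructor
  · rintro ⟨hc, hmin⟩
    refine ⟨⟨hc⟩, ?_⟩
    intro H' hle hv hc'
    refine SimpleGraph.Subgraph.ext hv ?_
    funext a b
    apply propext
    constructor
    · exact fun h => hle.2 h
    · intro hab
      let T : SimpleGraph H.verts :=
        { Adj := fun p q => H'.Adj p q
          symm := ⟨fun p q h => h.symm⟩
          loopless := ⟨fun p h => h.ne rfl⟩ }
      have hT : T.Connected := by
        rw [SimpleGraph.connected_iff]
        refine ⟨?_, hc.nonempty⟩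
        rintro ⟨u, hu⟩ ⟨v, hv'⟩
        have h1 := ((conn_iff H').1 hc').2 u (hv ▸ hu) v (hv ▸ hv')
        rw [SimpleGraph.reachable_iff_reflTransGen]
        have key : ∀ w, ReflTransGen H'.Adj u w → ∀ hw : w ∈ H.verts,
            ReflTransGen T.Adj ⟨u, hu⟩ ⟨w, hw⟩ := by
          intro w hw
          induction hw with
          | refl => intro _; exact ReflTransGen.refl
          | tail hab hbc ih =>
            intro hw
            exact ReflTransGen.tail (ih (hv ▸ H'.edge_vert hbc)) hbc
        exact key v h1 hv'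
      have hTle : T ≤ H.coe := by
        rintro ⟨p, hp⟩ ⟨q, hq⟩ h
        exact hle.2 h
      have := hmin hT hTle (show H.coe.Adj ⟨a, H.edge_vert hab⟩ ⟨b, H.edge_vert hab.symm⟩ from hab)
      exact this
  · rintro ⟨hc, hmin⟩
    refine ⟨hc.coe, ?_⟩
    intro T hT hle
    let H' : G.Subgraph :=
      { verts := H.verts
        Adj := fun a b => ∃ (ha : a ∈ H.verts) (hb : b ∈ H.verts), T.Adj ⟨a, ha⟩ ⟨b, hb⟩
        adj_sub := by
          rintro a b ⟨ha, hb, h⟩
          exact H.adj_sub (hle h)
        edge_vert := by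
          rintro a b ⟨ha, hb, h⟩
          exact ha
        symm := ⟨by
          rintro a b ⟨ha, hb, h⟩
          exact ⟨hb, ha, h.symm⟩⟩ }
    have hH'le : H' ≤ H := by
      refine ⟨le_refl _, ?_⟩
      rintro a b ⟨ha, hb, h⟩
      exact hle h
    have hH'c : H'.Connected := by
      rw [conn_iff]
      refine ⟨hc.nonempty, ?_⟩
      intro u hu v hv
      have h1 := hT.preconnected ⟨u, hu⟩ ⟨v, hv⟩
      rw [SimpleGraph.reachable_iff_reflTransGen] at h1
      exact ReflTransGen.lift (fun a : H.verts => (a : V))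
        (fun a b hab => ⟨a.2, b.2, hab⟩) _ _ h1
    have := hmin H' hH'le rfl hH'c
    rintro ⟨a, ha⟩ ⟨b, hb⟩ hab
    have h2 : H'.Adj a b := by rw [this]; exact hab
    obtain ⟨_, _, h3⟩ := h2
    exact h3

end basics

/-! ### Gluing at one vertex -/

section wedge
variable {V U : Type*} {G : SimpleGraph V} {x : V} {R : SimpleGraph (Option U)}

/-- One-vertex gluing: `R` is glued to `G` by identifying the vertex `none` of `R` with the
vertex `x` of `G`. -/
def wedge (G : SimpleGraph V) (x : V) (R : SimpleGraph (Option U)) : SimpleGraph (V ⊕ U) where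
  Adj p q := match p, q with
    | .inl a, .inl b => G.Adj a b
    | .inl a, .inr u => a = x ∧ R.Adj none (some u)
    | .inr u, .inl a => a = x ∧ R.Adj none (some u)
    | .inr u, .inr w => R.Adj (some u) (some w)
  symm := ⟨by
    rintro (a | u) (b | w) h
    · exact G.symm.symm _ _ h
    · exact h
    · exact h
    · exact R.symm.symm _ _ h⟩
  loopless := ⟨by
    rintro (a | u) h
    · exact G.loopless.irrefl _ h
    · exact R.loopless.irrefl _ h⟩

/-- the embedding of `R` in the wedge -/
def jU (x : V) : Option U → V ⊕ U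
  | none => Sum.inl x
  | some u => Sum.inr u

@[simp] lemma jU_none (x : V) : (jU x none : V ⊕ U) = Sum.inl x := rfl
@[simp] lemma jU_some (x : V) (u : U) : (jU x (some u) : V ⊕ U) = Sum.inr u := rfl

lemma jU_adj (o o' : Option U) (h : (wedge G x R).Adj (jU x o) (jU x o')) : R.Adj o o' := by
  rcases o with _ | u <;> rcases o' with _ | w
  · exact absurd h (G.loopless.irrefl _)
  · exact h.2
  · exact h.2.symm
  · exact h

/-- trace of a subgraph of the wedge on the left -/
def left (H : (wedge G x R).Subgraph) : G.Subgraph where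
  verts := {a | Sum.inl a ∈ H.verts}
  Adj a b := H.Adj (Sum.inl a) (Sum.inl b)
  adj_sub := fun h => H.adj_sub h
  edge_vert := fun h => H.edge_vert h
  symm := ⟨fun _ _ h => H.symm.symm _ _ h⟩

/-- trace of a subgraph of the wedge on the right -/
def right (H : (wedge G x R).Subgraph) : R.Subgraph where
  verts := {o | jU x o ∈ H.verts}
  Adj o o' := H.Adj (jU x o) (jU x o')
  adj_sub := fun h => jU_adj _ _ (H.adj_sub h)
  edge_vert := fun h => H.edge_vert h
  symm := ⟨fun _ _ h => H.symm.symm _ _ h⟩

/-- gluing of two subgraphs containing the gluing vertex -/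
def glue (H1 : G.Subgraph) (H2 : R.Subgraph) (hx : x ∈ H1.verts) :
    (wedge G x R).Subgraph where
  verts := {p | match p with
    | .inl a => a ∈ H1.verts
    | .inr u => some u ∈ H2.verts}
  Adj p q := match p, q with
    | .inl a, .inl b => H1.Adj a b
    | .inl a, .inr u => a = x ∧ H2.Adj none (some u)
    | .inr u, .inl a => a = x ∧ H2.Adj none (some u)
    | .inr u, .inr w => H2.Adj (some u) (some w)
  adj_sub := by
    rintro (a | u) (b | w) h
    · exact H1.adj_sub h
    · exact ⟨h.1, H2.adj_sub h.2⟩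
    · exact ⟨h.1, H2.adj_sub h.2⟩
    · exact H2.adj_sub h
  edge_vert := by
    rintro (a | u) (b | w) h
    · exact H1.edge_vert h
    · show a ∈ H1.verts
      rw [h.1]; exact hx
    · exact H2.edge_vert h.2.symm
    · exact H2.edge_vert h
  symm := ⟨by
    rintro (a | u) (b | w) h
    · exact H1.symm.symm _ _ h
    · exact h
    · exact h
    · exact H2.symm.symm _ _ h⟩

/-- a subgraph of `G` inside the wedge -/
def injL (H1 : G.Subgraph) : (wedge G x R).Subgraph where
  verts := {p | match p with
    | .inl a => a ∈ H1.verts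
    | .inr _ => False}
  Adj p q := match p, q with
    | .inl a, .inl b => H1.Adj a b
    | .inl _, .inr _ => False
    | .inr _, .inl _ => False
    | .inr _, .inr _ => False
  adj_sub := by
    rintro (a | u) (b | w) h
    · exact H1.adj_sub h
    · exact h.elim
    · exact h.elim
    · exact h.elim
  edge_vert := by
    rintro (a | u) (b | w) h
    · exact H1.edge_vert h
    · exact h.elim
    · exact h.elim
    · exact h.elim
  symm := ⟨by
    rintro (a | u) (b | w) h
    · exact H1.symm.symm _ _ h
    · exact h.elim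
    · exact h.elim
    · exact h.elim⟩

/-- a subgraph of `R` avoiding the root, inside the wedge -/
def injR (H2 : R.Subgraph) : (wedge G x R).Subgraph where
  verts := {p | match p with
    | .inl _ => False
    | .inr u => some u ∈ H2.verts}
  Adj p q := match p, q with
    | .inl _, .inl _ => False
    | .inl _, .inr _ => False
    | .inr _, .inl _ => False
    | .inr u, .inr w => H2.Adj (some u) (some w)
  adj_sub := by
    rintro (a | u) (b | w) h
    · exact h.elim
    · exact h.elim
    · exact h.elim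
    · exact H2.adj_sub h
  edge_vert := by
    rintro (a | u) (b | w) h
    · exact h.elim
    · exact h.elim
    · exact h.elim
    · exact H2.edge_vert h
  symm := ⟨by
    rintro (a | u) (b | w) h
    · exact h.elim
    · exact h.elim
    · exact h.elim
    · exact H2.symm.symm _ _ h⟩

lemma left_glue (H1 : G.Subgraph) (H2 : R.Subgraph) (hx : x ∈ H1.verts) :
    left (glue H1 H2 hx) = H1 := rfl

lemma right_glue (H1 : G.Subgraph) (H2 : R.Subgraph) (hx : x ∈ H1.verts)
    (hn : none ∈ H2.verts) : right (glue H1 H2 hx) = H2 := by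
  refine SimpleGraph.Subgraph.ext ?_ ?_
  · ext o
    rcases o with _ | u
    · exact ⟨fun _ => hn, fun _ => hx⟩
    · rfl
  · funext o o'
    apply propext
    rcases o with _ | u <;> rcases o' with _ | w
    · exact ⟨fun h => absurd rfl (SimpleGraph.Subgraph.Adj.ne h), fun h => absurd rfl h.ne⟩
    · exact ⟨fun h => h.2, fun h => ⟨rfl, h⟩⟩
    · exact ⟨fun h => h.2.symm, fun h => ⟨rfl, h.symm⟩⟩
    · rfl

lemma mem_left {H : (wedge G x R).Subgraph} {a : V} :
    a ∈ (left H).verts ↔ Sum.inl a ∈ H.verts := Iff.rfl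

lemma mem_right {H : (wedge G x R).Subgraph} {o : Option U} :
    o ∈ (right H).verts ↔ jU x o ∈ H.verts := Iff.rfl

lemma glue_left_right (H : (wedge G x R).Subgraph) (hx : x ∈ (left H).verts) :
    glue (left H) (right H) hx = H := by
  refine SimpleGraph.Subgraph.ext ?_ ?_
  · ext p
    rcases p with a | u
    · rfl
    · rfl
  · funext p q
    apply propext
    rcases p with a | u <;> rcases q with b | w
    · rfl
    · constructor
      · rintro ⟨rfl, h⟩
        exact h
      · intro h
        have h2 : a = x := (H.adj_sub h).1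
        subst h2
        exact ⟨rfl, h⟩
    · constructor
      · rintro ⟨rfl, h⟩
        exact h.symm
      · intro h
        have h2 : b = x := (H.adj_sub h).1
        subst h2
        exact ⟨rfl, h.symm⟩
    · rfl

/-- retraction to the left -/
def pV (x : V) : V ⊕ U → V
  | .inl a => a
  | .inr _ => x

/-- retraction to the right -/
def pU : V ⊕ U → Option U
  | .inl _ => none
  | .inr u => some u

lemma rtg_left (H : (wedge G x R).Subgraph) {p q : V ⊕ U} (h : ReflTransGen H.Adj p q) :
    ReflTransGen (left H).Adj (pV x p) (pV x q) := by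
  induction h with
  | refl => exact ReflTransGen.refl
  | tail hab hbc ih =>
    rename_i b c
    refine ih.trans ?_
    rcases b with a | u <;> rcases c with b | w
    · exact ReflTransGen.single hbc
    · have h2 : a = x := (H.adj_sub hbc).1
      subst h2
      exact ReflTransGen.refl
    · have h2 : b = x := (H.adj_sub hbc).1
      subst h2
      exact ReflTransGen.refl
    · exact ReflTransGen.refl

lemma rtg_right (H : (wedge G x R).Subgraph) {p q : V ⊕ U} (h : ReflTransGen H.Adj p q) :
    ReflTransGen (right H).Adj (pU p) (pU q) := by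
  induction h with
  | refl => exact ReflTransGen.refl
  | tail hab hbc ih =>
    rename_i b c
    refine ih.trans ?_
    rcases b with a | u <;> rcases c with b | w
    · exact ReflTransGen.refl
    · have h2 : a = x := (H.adj_sub hbc).1
      subst h2
      exact ReflTransGen.single hbc
    · have h2 : b = x := (H.adj_sub hbc).1
      subst h2
      exact ReflTransGen.single hbc
    · exact ReflTransGen.single hbc

lemma conn_wedge (H : (wedge G x R).Subgraph) (hx : Sum.inl x ∈ H.verts) :
    H.Connected ↔ (left H).Connected ∧ (right H).Connected := by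
  constructor
  · intro h
    rw [conn_iff] at h
    constructor
    · rw [conn_iff]
      refine ⟨⟨x, hx⟩, ?_⟩
      intro a ha b hb
      exact rtg_left H (h.2 _ ha _ hb)
    · refine conn_of_root _ none hx ?_
      intro o ho
      have := rtg_right H (h.2 _ ho _ hx)
      rcases o with _ | u
      · exact this
      · exact this
  · rintro ⟨h1, h2⟩
    rw [conn_iff] at h1 h2
    refine conn_of_root _ (Sum.inl x) hx ?_
    intro p hp
    rcases p with a | u
    · exact ReflTransGen.lift (Sum.inl : V → V ⊕ U) (fun a b hab => hab) _ _ (h1.2 a hp x hx)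
    · exact ReflTransGen.lift (jU x : Option U → V ⊕ U) (fun a b hab => hab) _ _
        (h2.2 (some u) hp none hx)

lemma left_mono {H H' : (wedge G x R).Subgraph} (h : H' ≤ H) : left H' ≤ left H :=
  ⟨fun _ ha => h.1 ha, fun _ _ hab => h.2 hab⟩

lemma right_mono {H H' : (wedge G x R).Subgraph} (h : H' ≤ H) : right H' ≤ right H :=
  ⟨fun _ ha => h.1 ha, fun _ _ hab => h.2 hab⟩

lemma glue_mono {H1 H1' : G.Subgraph} {H2 H2' : R.Subgraph} (hx : x ∈ H1.verts)
    (hx' : x ∈ H1'.verts) (h1 : H1' ≤ H1) (h2 : H2' ≤ H2) : glue H1' H2' hx' ≤ glue H1 H2 hx := by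
  refine ⟨?_, ?_⟩
  · rintro (a | u) ha
    · exact h1.1 ha
    · exact h2.1 ha
  · rintro (a | u) (b | w) h
    · exact h1.2 h
    · exact ⟨h.1, h2.2 h.2⟩
    · exact ⟨h.1, h2.2 h.2⟩
    · exact h2.2 h

lemma min_wedge (H : (wedge G x R).Subgraph) (hx : Sum.inl x ∈ H.verts) :
    IsMin H ↔ IsMin (left H) ∧ IsMin (right H) := by
  have hx0 : x ∈ (left H).verts := hx
  have hxn : none ∈ (right H).verts := hx
  constructor
  · rintro ⟨hc, hmin⟩
    have hc' := (conn_wedge H hx).1 hc
    refine ⟨⟨hc'.1, ?_⟩, ⟨hc'.2, ?_⟩⟩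
    · intro H1 hle hv hH1
      have hx1 : x ∈ H1.verts := by rw [hv]; exact hx
      have e1 : glue H1 (right H) hx1 = H := by
        refine hmin _ ?_ ?_ ?_
        · conv_rhs => rw [← glue_left_right H hx0]
          exact glue_mono _ _ hle le_rfl
        · ext p
          rcases p with a | u
          · show a ∈ H1.verts ↔ _
            rw [hv]; rfl
          · rfl
        · rw [conn_wedge _ hx1]
          rw [right_glue _ _ _ hxn]
          exact ⟨hH1, hc'.2⟩
      conv_rhs => rw [← e1]
      rfl
    · intro H2 hle hv hH2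
      have hx2 : none ∈ H2.verts := by rw [hv]; exact hx
      have e1 : glue (left H) H2 hx0 = H := by
        refine hmin _ ?_ ?_ ?_
        · conv_rhs => rw [← glue_left_right H hx0]
          exact glue_mono _ _ le_rfl hle
        · ext p
          rcases p with a | u
          · rfl
          · show some u ∈ H2.verts ↔ _
            rw [hv]; rfl
        · rw [conn_wedge (glue (left H) H2 hx0) hx0]
          rw [right_glue _ _ _ hx2]
          exact ⟨hc'.1, hH2⟩
      conv_rhs => rw [← e1]
      rw [right_glue _ _ _ hx2]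
  · rintro ⟨⟨hc1, hm1⟩, ⟨hc2, hm2⟩⟩
    refine ⟨(conn_wedge H hx).2 ⟨hc1, hc2⟩, ?_⟩
    intro H' hle hv hc'
    have hx' : x ∈ (left H').verts := by rw [mem_left, hv]; exact hx
    have hcc := (conn_wedge H' hx').1 hc'
    have e1 := hm1 (left H') (left_mono hle) (by
      ext a; show Sum.inl a ∈ H'.verts ↔ _; rw [hv]; rfl) hcc.1
    have e2 := hm2 (right H') (right_mono hle) (by
      ext a; show jU x a ∈ H'.verts ↔ _; rw [hv]; rfl) hcc.2
    calc H' = glue (left H') (right H') hx' := (glue_left_right H' hx').symm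
      _ = glue (left H) (right H) hx0 := by
          congr 1
      _ = H := glue_left_right H hx0

lemma ind_wedge (H : (wedge G x R).Subgraph) (hx : Sum.inl x ∈ H.verts) :
    H.IsInduced ↔ (left H).IsInduced ∧ (right H).IsInduced := by
  constructor
  · intro h
    refine ⟨?_, ?_⟩
    · intro a ha b hb hab
      exact h ha hb hab
    · intro o ho o' ho' hoo
      refine h ho ho' ?_
      rcases o with _ | u <;> rcases o' with _ | w
      · exact absurd rfl hoo.ne
      · exact ⟨rfl, hoo⟩
      · exact ⟨rfl, hoo.symm⟩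
      · exact hoo
  · rintro ⟨h1, h2⟩
    intro p hp q hq hpq
    rcases p with a | u <;> rcases q with b | w
    · exact h1 hp hq hpq
    · obtain ⟨rfl, h⟩ := hpq
      exact h2 (show none ∈ (right H).verts from hp) (show some w ∈ (right H).verts from hq) h
    · obtain ⟨rfl, h⟩ := hpq
      exact h2 (show some u ∈ (right H).verts from hp) (show none ∈ (right H).verts from hq) h.symm
    · exact h2 (show some u ∈ (right H).verts from hp) (show some w ∈ (right H).verts from hq) hpq

end wedge

/-! ### Sums over subgraphs of a glued graph -/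

section inj
variable {V U : Type*} {G : SimpleGraph V} {x : V} {R : SimpleGraph (Option U)}

lemma left_injL (H1 : G.Subgraph) : left (injL H1 : (wedge G x R).Subgraph) = H1 := rfl

lemma right_injR (H2 : R.Subgraph) (hn : none ∉ H2.verts) :
    right (injR H2 : (wedge G x R).Subgraph) = H2 := by
  refine SimpleGraph.Subgraph.ext ?_ ?_
  · ext o
    rcases o with _ | u
    · exact ⟨fun h => h.elim, fun h => hn h⟩
    · rfl
  · funext o o'
    apply propext
    rcases o with _ | u <;> rcases o' with _ | w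
    · exact ⟨fun h => h.elim, fun h => absurd rfl h.ne⟩
    · exact ⟨fun h => h.elim, fun h => hn (H2.edge_vert h)⟩
    · exact ⟨fun h => h.elim, fun h => hn (H2.edge_vert h.symm)⟩
    · rfl

lemma eq_injL (H : (wedge G x R).Subgraph) (h : ∀ u, Sum.inr u ∉ H.verts) :
    H = injL (left H) := by
  refine SimpleGraph.Subgraph.ext ?_ ?_
  · ext p
    rcases p with a | u
    · rfl
    · exact ⟨fun hh => h u hh, fun hh => hh.elim⟩
  · funext p q
    apply propext
    rcases p with a | u <;> rcases q with b | w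
    · rfl
    · exact ⟨fun hh => h w (H.edge_vert hh.symm), fun hh => hh.elim⟩
    · exact ⟨fun hh => h u (H.edge_vert hh), fun hh => hh.elim⟩
    · exact ⟨fun hh => h u (H.edge_vert hh), fun hh => hh.elim⟩

lemma eq_injR (H : (wedge G x R).Subgraph) (h : ∀ a, Sum.inl a ∉ H.verts) :
    H = injR (right H) := by
  refine SimpleGraph.Subgraph.ext ?_ ?_
  · ext p
    rcases p with a | u
    · exact ⟨fun hh => h a hh, fun hh => hh.elim⟩
    · rfl
  · funext p q
    apply propext
    rcases p with a | u <;> rcases q with b | w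
    · exact ⟨fun hh => h a (H.edge_vert hh), fun hh => hh.elim⟩
    · exact ⟨fun hh => h a (H.edge_vert hh), fun hh => hh.elim⟩
    · exact ⟨fun hh => h b (H.edge_vert hh.symm), fun hh => hh.elim⟩
    · rfl

lemma conn_off (H : (wedge G x R).Subgraph) (hc : H.Connected) (hx : Sum.inl x ∉ H.verts) :
    (∀ u, Sum.inr u ∉ H.verts) ∨ (∀ a, Sum.inl a ∉ H.verts) := by
  by_contra hcon
  push Not at hcon
  obtain ⟨⟨u, hu⟩, ⟨a, ha⟩⟩ := hcon
  obtain ⟨p, q, hp, hq, hpq⟩ := crossing hc (Set.range Sum.inl) ha ⟨a, rfl⟩ hu (by simp)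
  rcases q with b | w
  · exact hq ⟨b, rfl⟩
  · obtain ⟨c, rfl⟩ := hp
    have h2 : c = x := (H.adj_sub hpq).1
    subst h2
    exact hx (H.edge_vert hpq)

lemma conn_injL (H1 : G.Subgraph) :
    (injL H1 : (wedge G x R).Subgraph).Connected ↔ H1.Connected := by
  rw [conn_iff, conn_iff]
  constructor
  · rintro ⟨⟨p, hp⟩, h⟩
    rcases p with a | u
    · refine ⟨⟨a, hp⟩, ?_⟩
      intro b hb c hc
      exact rtg_left _ (h (Sum.inl b) hb (Sum.inl c) hc)
    · exact hp.elim
  · rintro ⟨⟨a, ha⟩, h⟩
    refine ⟨⟨Sum.inl a, ha⟩, ?_⟩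
    rintro (b | u) hb (c | w) hc
    · exact ReflTransGen.lift (Sum.inl : V → V ⊕ U) (fun a b hab => hab) _ _ (h b hb c hc)
    · exact hc.elim
    · exact hb.elim
    · exact hb.elim

lemma conn_injR (H2 : R.Subgraph) (hn : none ∉ H2.verts) :
    (injR H2 : (wedge G x R).Subgraph).Connected ↔ H2.Connected := by
  rw [conn_iff, conn_iff]
  constructor
  · rintro ⟨⟨p, hp⟩, h⟩
    rcases p with a | u
    · exact hp.elim
    · refine ⟨⟨some u, hp⟩, ?_⟩
      intro b hb c hc
      rcases b with _ | b
      · exact absurd hb hn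
      rcases c with _ | c
      · exact absurd hc hn
      have := rtg_right _ (h (Sum.inr b) hb (Sum.inr c) hc)
      rw [right_injR H2 hn] at this
      exact this
  · rintro ⟨⟨a, ha⟩, h⟩
    rcases a with _ | a
    · exact absurd ha hn
    refine ⟨⟨Sum.inr a, ha⟩, ?_⟩
    rintro (b | u) hb (c | w) hc
    · exact hb.elim
    · exact hb.elim
    · exact hc.elim
    · have h3 := h (some u) hb (some w) hc
      have h4 : ReflTransGen (injR H2 : (wedge G x R).Subgraph).Adj (jU x (some u)) (jU x (some w)) := by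
        refine ReflTransGen.lift (jU x : Option U → V ⊕ U) (fun a b hab => ?_) _ _ h3
        rcases a with _ | a
        · exact absurd (H2.edge_vert hab) hn
        rcases b with _ | b
        · exact absurd (H2.edge_vert hab.symm) hn
        exact hab
      exact h4

lemma min_injL (H1 : G.Subgraph) :
    IsMin (injL H1 : (wedge G x R).Subgraph) ↔ IsMin H1 := by
  constructor
  · rintro ⟨hc, hm⟩
    refine ⟨(conn_injL H1).1 hc, ?_⟩
    intro H' hle hv hc'
    have := hm (injL H') ?_ ?_ ((conn_injL H').2 hc')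
    · have h2 := congrArg left this
      exact h2
    · refine ⟨?_, ?_⟩
      · rintro (a | u) ha
        · exact hle.1 ha
        · exact ha.elim
      · rintro (a | u) (b | w) hab
        · exact hle.2 hab
        · exact hab.elim
        · exact hab.elim
        · exact hab.elim
    · ext p
      rcases p with a | u
      · show a ∈ H'.verts ↔ a ∈ H1.verts
        rw [hv]
      · exact Iff.rfl
  · rintro ⟨hc, hm⟩
    refine ⟨(conn_injL H1).2 hc, ?_⟩
    intro H' hle hv hc'
    have e1 : H' = injL (left H') := eq_injL H' (fun u hu => by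
      have := hle.1 hu
      exact this)
    rw [e1] at hc'
    have h2 := hm (left H') (left_mono hle) (by
      ext a
      rw [mem_left, hv]
      exact Iff.rfl) ((conn_injL _).1 hc')
    rw [e1, h2]

lemma min_injR (H2 : R.Subgraph) (hn : none ∉ H2.verts) :
    IsMin (injR H2 : (wedge G x R).Subgraph) ↔ IsMin H2 := by
  constructor
  · rintro ⟨hc, hm⟩
    refine ⟨(conn_injR H2 hn).1 hc, ?_⟩
    intro H' hle hv hc'
    have hn' : none ∉ H'.verts := by rw [hv]; exact hn
    have := hm (injR H') ?_ ?_ ((conn_injR H' hn').2 hc')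
    · have h2 := congrArg right this
      rw [right_injR H2 hn, right_injR H' hn'] at h2
      exact h2
    · refine ⟨?_, ?_⟩
      · rintro (a | u) ha
        · exact ha.elim
        · exact hle.1 ha
      · rintro (a | u) (b | w) hab
        · exact hab.elim
        · exact hab.elim
        · exact hab.elim
        · exact hle.2 hab
    · ext p
      rcases p with a | u
      · exact Iff.rfl
      · show some u ∈ H'.verts ↔ some u ∈ H2.verts
        rw [hv]
  · rintro ⟨hc, hm⟩
    refine ⟨(conn_injR H2 hn).2 hc, ?_⟩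
    intro H' hle hv hc'
    have e1 : H' = injR (right H') := eq_injR H' (fun u hu => by
      have := hle.1 hu
      exact this)
    have hn' : none ∉ (right H').verts := by
      rw [mem_right, hv]
      exact fun h => h.elim
    rw [e1, conn_injR _ hn'] at hc'
    have h2 := hm (right H') (by
      have := right_mono hle
      rw [right_injR H2 hn] at this
      exact this) (by
      ext a
      rw [mem_right, hv]
      rcases a with _ | a
      · exact ⟨fun h => h.elim, fun h => hn h⟩
      · exact Iff.rfl) hc'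
    rw [e1, h2]

lemma ind_injL (H1 : G.Subgraph) :
    (injL H1 : (wedge G x R).Subgraph).IsInduced ↔ H1.IsInduced := by
  constructor
  · intro h a ha b hb hab
    exact h (v := Sum.inl a) (w := Sum.inl b) ha hb hab
  · rintro h (a | u) ha (b | w) hb hab
    · exact h ha hb hab
    · exact hb.elim
    · exact ha.elim
    · exact ha.elim

lemma ind_injR (H2 : R.Subgraph) (hn : none ∉ H2.verts) :
    (injR H2 : (wedge G x R).Subgraph).IsInduced ↔ H2.IsInduced := by
  constructor
  · intro h a ha b hb hab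
    rcases a with _ | a
    · exact absurd ha hn
    rcases b with _ | b
    · exact absurd hb hn
    exact h (v := Sum.inr a) (w := Sum.inr b) ha hb hab
  · rintro h (a | u) ha (b | w) hb hab
    · exact ha.elim
    · exact ha.elim
    · exact hb.elim
    · exact h (v := some u) (w := some w) ha hb hab

end inj

/-- a property of subgraphs behaving well under one-vertex gluing -/
structure GoodFam (P : ∀ {V : Type} (G : SimpleGraph V), G.Subgraph → Prop) : Prop where
  conn : ∀ {V : Type} (G : SimpleGraph V) (H : G.Subgraph), P G H → H.Connected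
  glue_iff : ∀ {V U : Type} (G : SimpleGraph V) (x : V) (R : SimpleGraph (Option U))
    (H : (wedge G x R).Subgraph), Sum.inl x ∈ H.verts → (P _ H ↔ P _ (left H) ∧ P _ (right H))
  injL : ∀ {V U : Type} (G : SimpleGraph V) (x : V) (R : SimpleGraph (Option U))
    (H1 : G.Subgraph), P _ (injL H1 : (wedge G x R).Subgraph) ↔ P _ H1
  injR : ∀ {V U : Type} (G : SimpleGraph V) (x : V) (R : SimpleGraph (Option U))
    (H2 : R.Subgraph), none ∉ H2.verts →
      (P _ (injR H2 : (wedge G x R).Subgraph) ↔ P _ H2)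

/-- connected induced subgraphs -/
def PInd {V : Type} (G : SimpleGraph V) (H : G.Subgraph) : Prop := H.Connected ∧ H.IsInduced

/-- subtrees -/
def PTree {V : Type} (G : SimpleGraph V) (H : G.Subgraph) : Prop := IsMin H

lemma good_ind : GoodFam @PInd where
  conn := fun _ _ h => h.1
  glue_iff := fun _ _ _ H hx => by
    unfold PInd
    rw [conn_wedge H hx, ind_wedge H hx]
    tauto
  injL := fun _ _ _ H1 => by
    unfold PInd
    rw [conn_injL, ind_injL]
  injR := fun _ _ _ H2 hn => by
    unfold PInd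
    rw [conn_injR _ hn, ind_injR _ hn]

lemma good_tree : GoodFam @PTree where
  conn := fun _ _ h => h.1
  glue_iff := fun _ _ _ H hx => min_wedge H hx
  injL := fun _ _ _ H1 => min_injL H1
  injR := fun _ _ _ H2 hn => min_injR H2 hn

open Classical in
/-- the finset of subgraphs having the property -/
noncomputable def fam (P : ∀ {V : Type} (G : SimpleGraph V), G.Subgraph → Prop) {V : Type}
    [Finite V] (G : SimpleGraph V) : Finset G.Subgraph :=
  (Set.toFinite {H : G.Subgraph | P G H}).toFinset

lemma mem_fam (P : ∀ {V : Type} (G : SimpleGraph V), G.Subgraph → Prop) {V : Type}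
    [Finite V] (G : SimpleGraph V) (H : G.Subgraph) : H ∈ fam P G ↔ P G H := by
  simp [fam]

/-- sum over the subgraphs with the property -/
noncomputable def SS (P : ∀ {V : Type} (G : SimpleGraph V), G.Subgraph → Prop) {V : Type}
    [Finite V] (G : SimpleGraph V) (F : Set V → ℚ) : ℚ := ∑ H ∈ fam P G, F H.verts

/-- vertex set of a glued subgraph -/
def glueSet {V U : Type} (S : Set V) (T : Set (Option U)) : Set (V ⊕ U) :=
  {p | match p with
    | .inl a => a ∈ S
    | .inr u => some u ∈ T}

open Classical in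
theorem SS_wedge {P : ∀ {V : Type} (G : SimpleGraph V), G.Subgraph → Prop} (hP : GoodFam @P)
    {V U : Type} [Finite V] [Finite U] (G : SimpleGraph V) (x : V) (R : SimpleGraph (Option U))
    (F : Set (V ⊕ U) → ℚ) :
    SS @P (wedge G x R) F = SS @P G (fun S => if x ∈ S then
      SS @P R (fun T => if none ∈ T then F (glueSet S T) else 0) else F (glueSet S ∅))
      + SS @P R (fun T => if none ∈ T then 0 else F (glueSet ∅ T)) := by
  unfold SS
  rw [← Finset.sum_filter_add_sum_filter_not (fam @P (wedge G x R))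
    (fun H => Sum.inl x ∈ H.verts)]
  rw [← Finset.sum_filter_add_sum_filter_not (fam @P G) (fun H => x ∈ H.verts)]
  rw [add_assoc]
  congr 1
  · have e1 : ∀ H ∈ (fam @P G).filter (fun H => x ∈ H.verts),
        (if x ∈ H.verts then ∑ H_1 ∈ fam @P R, (if none ∈ H_1.verts then
          F (glueSet H.verts H_1.verts) else 0) else F (glueSet H.verts ∅)) =
        ∑ H_1 ∈ (fam @P R).filter (fun H => none ∈ H.verts), F (glueSet H.verts H_1.verts) := by
      intro H hH
      rw [Finset.mem_filter] at hH
      rw [if_pos hH.2, Finset.sum_filter]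
    rw [Finset.sum_congr rfl e1, ← Finset.sum_product']
    refine Finset.sum_nbij' (fun H => (left H, right H))
      (fun p => if h : x ∈ p.1.verts then glue p.1 p.2 h else ⊥) ?_ ?_ ?_ ?_ ?_
    · intro H hH
      rw [Finset.mem_filter, mem_fam] at hH
      rw [Finset.mem_product, Finset.mem_filter, Finset.mem_filter, mem_fam, mem_fam]
      have := (hP.glue_iff G x R H hH.2).1 hH.1
      exact ⟨⟨this.1, hH.2⟩, ⟨this.2, hH.2⟩⟩
    · rintro ⟨H1, H2⟩ hH
      rw [Finset.mem_product, Finset.mem_filter, Finset.mem_filter, mem_fam, mem_fam] at hH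
      obtain ⟨⟨h1, hx⟩, ⟨h2, hn⟩⟩ := hH
      simp only at h1 hx h2 hn
      rw [Finset.mem_filter, mem_fam]
      simp only [dif_pos hx]
      refine ⟨(hP.glue_iff G x R _ hx).2 ?_, hx⟩
      rw [right_glue _ _ _ hn]
      exact ⟨h1, h2⟩
    · intro H hH
      rw [Finset.mem_filter, mem_fam] at hH
      have hx : x ∈ (left H).verts := hH.2
      simp only [dif_pos hx]
      exact glue_left_right H hx
    · rintro ⟨H1, H2⟩ hH
      rw [Finset.mem_product, Finset.mem_filter, Finset.mem_filter, mem_fam, mem_fam] at hH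
      obtain ⟨⟨h1, hx⟩, ⟨h2, hn⟩⟩ := hH
      simp only at h1 hx h2 hn
      simp only [dif_pos hx]
      rw [right_glue _ _ _ hn]
      rfl
    · intro H hH
      congr 1
      ext p
      rcases p with a | u
      · exact Iff.rfl
      · exact Iff.rfl
  · have e1 : ∀ H ∈ (fam @P G).filter (fun H => ¬ x ∈ H.verts),
        (if x ∈ H.verts then ∑ H_1 ∈ fam @P R, (if none ∈ H_1.verts then
          F (glueSet H.verts H_1.verts) else 0) else F (glueSet H.verts ∅)) =
        F (glueSet H.verts ∅) := by
      intro H hH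
      rw [Finset.mem_filter] at hH
      rw [if_neg hH.2]
    rw [Finset.sum_congr rfl e1]
    have e2 : ∑ H ∈ fam @P R, (if none ∈ H.verts then 0 else F (glueSet ∅ H.verts)) =
        ∑ H ∈ (fam @P R).filter (fun H => ¬ none ∈ H.verts), F (glueSet ∅ H.verts) := by
      rw [Finset.sum_filter]
      refine Finset.sum_congr rfl (fun H _ => ?_)
      by_cases h : none ∈ H.verts
      · rw [if_pos h, if_neg (not_not.2 h)]
      · rw [if_neg h, if_pos h]
    rw [e2]
    rw [← Finset.sum_filter_add_sum_filter_not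
      ((fam @P (wedge G x R)).filter (fun H => ¬ Sum.inl x ∈ H.verts))
      (fun H => ∀ u, Sum.inr u ∉ H.verts)]
    congr 1
    · refine Finset.sum_nbij' (fun H => left H) (fun H1 => injL H1) ?_ ?_ ?_ ?_ ?_
      · intro H hH
        rw [Finset.mem_filter, Finset.mem_filter, mem_fam] at hH
        rw [Finset.mem_filter, mem_fam]
        refine ⟨?_, hH.1.2⟩
        have := hH.1.1
        rw [eq_injL H hH.2, hP.injL] at this
        exact this
      · intro H1 hH
        rw [Finset.mem_filter, mem_fam] at hH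
        rw [Finset.mem_filter, Finset.mem_filter, mem_fam]
        exact ⟨⟨(hP.injL G x R H1).2 hH.1, hH.2⟩, fun u hu => hu⟩
      · intro H hH
        rw [Finset.mem_filter, Finset.mem_filter, mem_fam] at hH
        exact (eq_injL H hH.2).symm
      · intro H1 _
        rfl
      · intro H hH
        rw [Finset.mem_filter, Finset.mem_filter, mem_fam] at hH
        congr 1
        ext p
        rcases p with a | u
        · exact Iff.rfl
        · exact ⟨fun h => absurd h (hH.2 u), fun h => h.elim⟩
    · refine Finset.sum_nbij' (fun H => right H) (fun H2 => injR H2) ?_ ?_ ?_ ?_ ?_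
      · intro H hH
        rw [Finset.mem_filter, Finset.mem_filter, mem_fam] at hH
        rw [Finset.mem_filter, mem_fam]
        obtain ⟨⟨h1, h2⟩, h3⟩ := hH
        have h4 : ∀ a, Sum.inl a ∉ H.verts := by
          rcases conn_off H (hP.conn _ _ h1) h2 with h | h
          · exact absurd h h3
          · exact h
        have h5 : none ∉ (right H).verts := h2
        refine ⟨?_, h5⟩
        rw [eq_injR H h4, hP.injR G x R _ h5] at h1
        exact h1
      · intro H2 hH
        rw [Finset.mem_filter, mem_fam] at hH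
        rw [Finset.mem_filter, Finset.mem_filter, mem_fam]
        refine ⟨⟨(hP.injR G x R H2 hH.2).2 hH.1, fun h => h⟩, ?_⟩
        intro h
        have hne := (hP.conn _ _ hH.1).nonempty
        obtain ⟨o, ho⟩ := hne
        rcases o with _ | u
        · exact hH.2 ho
        · exact h u ho
      · intro H hH
        rw [Finset.mem_filter, Finset.mem_filter, mem_fam] at hH
        obtain ⟨⟨h1, h2⟩, h3⟩ := hH
        have h4 : ∀ a, Sum.inl a ∉ H.verts := by
          rcases conn_off H (hP.conn _ _ h1) h2 with h | h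
          · exact absurd h h3
          · exact h
        exact (eq_injR H h4).symm
      · intro H2 hH
        rw [Finset.mem_filter, mem_fam] at hH
        exact right_injR H2 hH.2
      · intro H hH
        rw [Finset.mem_filter, Finset.mem_filter, mem_fam] at hH
        obtain ⟨⟨h1, h2⟩, h3⟩ := hH
        have h4 : ∀ a, Sum.inl a ∉ H.verts := by
          rcases conn_off H (hP.conn _ _ h1) h2 with h | h
          · exact absurd h h3
          · exact h
        congr 1
        ext p
        rcases p with a | u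
        · exact ⟨fun h => absurd h (h4 a), fun h => h.elim⟩
        · exact Iff.rfl

/-! ### Stars -/

/-- star with centre `none` and set of leaves `U` -/
def star (U : Type) : SimpleGraph (Option U) where
  Adj o o' := (o = none ∧ o' ≠ none) ∨ (o ≠ none ∧ o' = none)
  symm := ⟨by
    rintro a b (⟨h1, h2⟩ | ⟨h1, h2⟩)
    · exact Or.inr ⟨h2, h1⟩
    · exact Or.inl ⟨h2, h1⟩⟩
  loopless := ⟨by
    rintro a (⟨h1, h2⟩ | ⟨h1, h2⟩)
    · exact h2 h1
    · exact h1 h2⟩

section
variable {V : Type} {G : SimpleGraph V}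

lemma induced_eq {H H' : G.Subgraph} (h : H.IsInduced) (h' : H'.IsInduced)
    (hv : H.verts = H'.verts) : H = H' := by
  rw [← h.induce_top_verts, ← h'.induce_top_verts, hv]

lemma pInd_of_conn (hG : ∀ H : G.Subgraph, H.Connected → H.IsInduced) (H : G.Subgraph) :
    PInd G H ↔ H.Connected := ⟨fun h => h.1, fun h => ⟨h, hG H h⟩⟩

lemma pTree_of_conn (hG : ∀ H : G.Subgraph, H.Connected → H.IsInduced) (H : G.Subgraph) :
    PTree G H ↔ H.Connected :=
  ⟨fun h => h.1, fun h => ⟨h, fun _ _ hv hc => induced_eq (hG _ hc) (hG _ h) hv⟩⟩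

end

section
variable {U : Type}

lemma star_adj_none {H : (star U).Subgraph} (hc : H.Connected) (hn : none ∈ H.verts) {u : U}
    (hu : some u ∈ H.verts) : H.Adj none (some u) := by
  obtain ⟨a, b, ha, hb, hab⟩ := crossing hc {some u} hu rfl hn (by simp)
  rw [Set.mem_singleton_iff] at ha
  subst ha
  rcases H.adj_sub hab with ⟨h1, h2⟩ | ⟨h1, h2⟩
  · exact absurd h1 (by simp)
  · rw [h2] at hab
    exact hab.symm

lemma star_conn_induced (H : (star U).Subgraph) (hc : H.Connected) : H.IsInduced := by
  by_cases hn : none ∈ H.verts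
  · intro a ha b hb hab
    rcases hab with ⟨h1, h2⟩ | ⟨h1, h2⟩
    · subst h1
      rcases b with _ | b
      · exact absurd rfl h2
      · exact star_adj_none hc hn hb
    · subst h2
      rcases a with _ | a
      · exact absurd rfl h1
      · exact (star_adj_none hc hn ha).symm
  · intro a ha b hb hab
    rcases hab with ⟨h1, h2⟩ | ⟨h1, h2⟩
    · rw [h1] at ha; exact absurd ha hn
    · rw [h2] at hb; exact absurd hb hn

/-- the connected subgraph of the star with a given set of leaves -/
def starSub (T : Set U) : (star U).Subgraph := (⊤ : (star U).Subgraph).induce (insert none (some '' T))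

lemma starSub_verts (T : Set U) : (starSub T).verts = insert none (some '' T) := rfl

lemma starSub_conn (T : Set U) : (starSub T).Connected := by
  refine conn_of_root _ none (by simp [starSub_verts]) ?_
  intro u hu
  rcases u with _ | u
  · exact ReflTransGen.refl
  · refine ReflTransGen.single ?_
    refine ⟨hu, by simp, ?_⟩
    exact Or.inr ⟨by simp, rfl⟩

lemma singleton_conn (u : U) : ((star U).singletonSubgraph (some u)).Connected :=
  SimpleGraph.Subgraph.singletonSubgraph_connected

lemma star_off (H : (star U).Subgraph) (hc : H.Connected) (hn : none ∉ H.verts) :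
    ∃ u, H.verts = {some u} := by
  obtain ⟨o, ho⟩ := hc.nonempty
  rcases o with _ | u
  · exact absurd ho hn
  refine ⟨u, ?_⟩
  ext o
  constructor
  · intro h
    by_contra hne
    obtain ⟨a, b, ha, hb, hab⟩ := crossing hc {some u} ho rfl h hne
    rcases H.adj_sub hab with ⟨h1, h2⟩ | ⟨h1, h2⟩
    · rw [h1] at hab
      exact hn (H.edge_vert hab)
    · rw [h2] at hab
      exact hn (H.edge_vert hab.symm)
  · rintro h
    rw [Set.mem_singleton_iff] at h
    rw [h]; exact ho

open Classical in
theorem SS_star_aux {P : ∀ {V : Type} (G : SimpleGraph V), G.Subgraph → Prop}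
    (hP : ∀ H : (star U).Subgraph, P (star U) H ↔ H.Connected) [Fintype U]
    (F : Set (Option U) → ℚ) :
    SS @P (star U) F = ∑ T : Finset U, F (insert none (some '' (T : Set U)))
      + ∑ u : U, F {some u} := by
  unfold SS
  rw [← Finset.sum_filter_add_sum_filter_not (fam @P (star U)) (fun H => none ∈ H.verts)]
  congr 1
  · refine Finset.sum_nbij' (fun H => Finset.univ.filter (fun u => some u ∈ H.verts))
      (fun T => starSub (T : Set U)) ?_ ?_ ?_ ?_ ?_
    · intro H _
      exact Finset.mem_univ _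
    · intro T _
      rw [Finset.mem_filter, mem_fam, hP]
      exact ⟨starSub_conn _, by simp [starSub_verts]⟩
    · intro H hH
      rw [Finset.mem_filter, mem_fam, hP] at hH
      refine induced_eq (star_conn_induced _ (starSub_conn _)) (star_conn_induced _ hH.1) ?_
      rw [starSub_verts]
      ext o
      rcases o with _ | u
      · simp [hH.2]
      · simp
    · intro T _
      ext u
      simp [starSub_verts]
    · intro H hH
      rw [Finset.mem_filter, mem_fam, hP] at hH
      congr 1
      ext o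
      rcases o with _ | u
      · simp [hH.2]
      · simp
  · symm
    refine Finset.sum_bij (fun u _ => (star U).singletonSubgraph (some u)) ?_ ?_ ?_ ?_
    · intro u _
      rw [Finset.mem_filter, mem_fam, hP]
      exact ⟨singleton_conn u, by simp⟩
    · intro u _ w _ h
      have := congrArg SimpleGraph.Subgraph.verts h
      simpa using this
    · intro H hH
      rw [Finset.mem_filter, mem_fam, hP] at hH
      obtain ⟨u, hu⟩ := star_off H hH.1 hH.2
      refine ⟨u, Finset.mem_univ _, ?_⟩
      refine induced_eq (star_conn_induced _ (singleton_conn _)) (star_conn_induced _ hH.1) ?_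
      rw [hu]
      rfl
    · intro u _
      rfl

theorem SS_star_ind [Fintype U] (F : Set (Option U) → ℚ) :
    SS @PInd (star U) F = ∑ T : Finset U, F (insert none (some '' (T : Set U)))
      + ∑ u : U, F {some u} :=
  SS_star_aux (pInd_of_conn star_conn_induced) F

theorem SS_star_tree [Fintype U] (F : Set (Option U) → ℚ) :
    SS @PTree (star U) F = ∑ T : Finset U, F (insert none (some '' (T : Set U)))
      + ∑ u : U, F {some u} :=
  SS_star_aux (pTree_of_conn star_conn_induced) F

end

/-! ### Cycles -/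

section cycle

variable {m : ℕ}

/-- position on the cycle `0, 1, ..., m`; the root `none` has position `0` -/
def pos : Option (Fin m) → ℕ
  | none => 0
  | some k => k + 1

@[simp] lemma pos_none : pos (none : Option (Fin m)) = 0 := rfl
@[simp] lemma pos_some (k : Fin m) : pos (some k) = k + 1 := rfl

lemma pos_le (a : Option (Fin m)) : pos a ≤ m := by
  rcases a with _ | k
  · exact Nat.zero_le _
  · exact k.2

lemma pos_inj {a b : Option (Fin m)} (h : pos a = pos b) : a = b := by
  rcases a with _ | k <;> rcases b with _ | l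
  · rfl
  · simp at h
  · simp at h
  · simp only [pos_some, Nat.add_right_cancel_iff] at h
    rw [Fin.ext h]

lemma exists_pos {k : ℕ} (hk : k ≤ m) : ∃ a : Option (Fin m), pos a = k := by
  rcases k with _ | k
  · exact ⟨none, rfl⟩
  · exact ⟨some ⟨k, hk⟩, rfl⟩

/-- `a b` are the ends of the edge number `k` of the cycle (`0 ≤ k ≤ m`) -/
def ed (m k : ℕ) (a b : Option (Fin m)) : Prop :=
  (k < m ∧ ((pos a = k ∧ pos b = k + 1) ∨ (pos b = k ∧ pos a = k + 1))) ∨
    (k = m ∧ ((pos a = m ∧ pos b = 0) ∨ (pos b = m ∧ pos a = 0)))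

lemma ed_symm {k : ℕ} {a b : Option (Fin m)} (h : ed m k a b) : ed m k b a := by
  unfold ed at *; tauto

lemma ed_unique (hm : 2 ≤ m) {k l : ℕ} {a b : Option (Fin m)} (h : ed m k a b)
    (h' : ed m l a b) : k = l := by
  unfold ed at *; omega

lemma ed_le {k : ℕ} {a b : Option (Fin m)} (h : ed m k a b) : k ≤ m := by
  unfold ed at h; omega

lemma ed_det {k : ℕ} (hm : 2 ≤ m) {a b c d : Option (Fin m)} (h : ed m k a b)
    (h' : ed m k c d) : (a = c ∧ b = d) ∨ (a = d ∧ b = c) := by
  unfold ed at *
  have h1 : (pos a = pos c ∧ pos b = pos d) ∨ (pos a = pos d ∧ pos b = pos c) := by omega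
  rcases h1 with h1 | h1
  · exact Or.inl ⟨pos_inj h1.1, pos_inj h1.2⟩
  · exact Or.inr ⟨pos_inj h1.1, pos_inj h1.2⟩

lemma exists_ed {k : ℕ} (hk : k ≤ m) : ∃ a b, ed m k a b := by
  rcases Nat.lt_or_ge k m with h | h
  · obtain ⟨a, ha⟩ := exists_pos hk
    obtain ⟨b, hb⟩ := exists_pos (m := m) (k := k + 1) h
    exact ⟨a, b, Or.inl ⟨h, Or.inl ⟨ha, hb⟩⟩⟩
  · obtain ⟨a, ha⟩ := exists_pos (le_refl m)
    obtain ⟨b, hb⟩ := exists_pos (Nat.zero_le m)
    exact ⟨a, b, Or.inr ⟨le_antisymm hk h, Or.inl ⟨ha, hb⟩⟩⟩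

/-- the cycle with `m + 1` vertices -/
def cyc (m : ℕ) : SimpleGraph (Option (Fin m)) where
  Adj a b := a ≠ b ∧ ∃ k, ed m k a b
  symm := ⟨by
    rintro a b ⟨h, k, hk⟩
    exact ⟨h.symm, k, ed_symm hk⟩⟩
  loopless := ⟨fun _ h => h.1 rfl⟩

lemma ed_ne (hm : 2 ≤ m) {k : ℕ} {a b : Option (Fin m)} (h : ed m k a b) : a ≠ b := by
  rintro rfl
  unfold ed at h
  omega

/-- vertex set of the cycle with the vertices in positions `i+1, ..., j` removed -/
def VT (i j : ℕ) : Set (Option (Fin m)) := {a | pos a ≤ i ∨ j < pos a}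

/-- the cycle with the edges number `i, ..., j` removed (`i ≤ j ≤ m`) -/
def TT (hm : 2 ≤ m) (i j : ℕ) (hij : i ≤ j) : (cyc m).Subgraph where
  verts := VT i j
  Adj a b := ∃ k, ed m k a b ∧ (k < i ∨ j < k)
  adj_sub := by
    rintro a b ⟨k, hk, _⟩
    exact ⟨ed_ne hm hk, k, hk⟩
  edge_vert := by
    rintro a b ⟨k, hk, h⟩
    show pos a ≤ i ∨ j < pos a
    unfold ed at hk
    omega
  symm := ⟨by
    rintro a b ⟨k, hk, h⟩
    exact ⟨k, ed_symm hk, h⟩⟩

lemma mem_VT {i j : ℕ} {a : Option (Fin m)} : a ∈ VT i j ↔ pos a ≤ i ∨ j < pos a := Iff.rfl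

lemma TT_verts (hm : 2 ≤ m) (i j : ℕ) (hij : i ≤ j) : (TT hm i j hij).verts = VT i j := rfl

lemma TT_conn (hm : 2 ≤ m) (i j : ℕ) (hij : i ≤ j) : (TT hm i j hij).Connected := by
  refine conn_of_root _ none (by rw [TT_verts, mem_VT]; exact Or.inl (Nat.zero_le _)) ?_
  have h1 : ∀ k, ∀ a : Option (Fin m), pos a = k → k ≤ i →
      ReflTransGen (TT hm i j hij).Adj a none := by
    intro k
    induction k with
    | zero =>
      intro a ha _
      have : a = none := pos_inj ha
      rw [this]
    | succ k ih =>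
      intro a ha hk
      have hle := pos_le a
      obtain ⟨b, hb⟩ := exists_pos (m := m) (k := k) (by omega)
      refine ReflTransGen.head ?_ (ih b hb (by omega))
      refine ⟨k, ?_, Or.inl hk⟩
      unfold ed
      omega
  have h2 : ∀ t, ∀ a : Option (Fin m), pos a + t = m → j < pos a →
      ReflTransGen (TT hm i j hij).Adj a none := by
    intro t
    induction t with
    | zero =>
      intro a ha hj
      refine ReflTransGen.single ?_
      refine ⟨m, ?_, Or.inr (by omega)⟩
      unfold ed
      rw [pos_none]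
      omega
    | succ t ih =>
      intro a ha hj
      obtain ⟨b, hb⟩ := exists_pos (m := m) (k := pos a + 1) (by omega)
      refine ReflTransGen.head ?_ (ih b (by omega) (by omega))
      refine ⟨pos a, ?_, Or.inr hj⟩
      unfold ed
      omega
  intro a ha
  rw [TT_verts, mem_VT] at ha
  rcases ha with ha | ha
  · exact h1 _ a rfl ha
  · have hle := pos_le a
    exact h2 (m - pos a) a (by omega) ha

/-- the edge number `k` is missing -/
def miss (H : (cyc m).Subgraph) (k : ℕ) : Prop := k ≤ m ∧ ∀ a b, ed m k a b → ¬ H.Adj a b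

lemma not_miss (hm : 2 ≤ m) {H : (cyc m).Subgraph} {k : ℕ} (hk : k ≤ m) (h : ¬ miss H k)
    {a b : Option (Fin m)} (hab : ed m k a b) : H.Adj a b := by
  by_contra hcon
  refine h ⟨hk, ?_⟩
  intro c d hcd hH
  rcases ed_det hm hab hcd with ⟨rfl, rfl⟩ | ⟨rfl, rfl⟩
  · exact hcon hH
  · exact hcon hH.symm

lemma miss_convex {H : (cyc m).Subgraph} (hc : H.Connected) (hn : none ∈ H.verts)
    {p r : ℕ} (hp : miss H p) (hr : miss H r) {a : Option (Fin m)} (h1 : p < pos a)
    (h2 : pos a ≤ r) : a ∉ H.verts := by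
  intro ha
  obtain ⟨c, d, hcK, hdK, hcd⟩ := crossing hc {c : Option (Fin m) | p < pos c ∧ pos c ≤ r}
    ha ⟨h1, h2⟩ hn (by simp)
  simp only [Set.mem_ofPred_eq] at hcK hdK
  obtain ⟨_, k, hk⟩ := H.adj_sub hcd
  have hrm := hr.1
  have hkp : k ≠ p := by
    rintro rfl
    exact hp.2 c d hk hcd
  have hkr : k ≠ r := by
    rintro rfl
    exact hr.2 c d hk hcd
  unfold ed at hk
  omega

open Classical in
/-- classification of the connected subgraphs of the cycle containing the root -/
theorem cyc_class (hm : 2 ≤ m) {H : (cyc m).Subgraph} (hc : H.Connected) (hn : none ∈ H.verts) :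
    H = ⊤ ∨ ∃ i j, ∃ hij : i ≤ j, j ≤ m ∧ H = TT hm i j hij := by
  by_cases hM : ∃ k, miss H k
  · right
    obtain ⟨k0, hk0⟩ := hM
    have hS : (((Finset.range (m + 1)).filter (fun k => miss H k))).Nonempty :=
      ⟨k0, by rw [Finset.mem_filter, Finset.mem_range]; exact ⟨by have := hk0.1; omega, hk0⟩⟩
    set S := ((Finset.range (m + 1)).filter (fun k => miss H k)) with hSdef
    have hmem : ∀ k, k ∈ S ↔ miss H k := by
      intro k
      rw [hSdef, Finset.mem_filter, Finset.mem_range]
      constructor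
      · exact fun h => h.2
      · exact fun h => ⟨by have := h.1; omega, h⟩
    set i := S.min' hS with hi
    set j := S.max' hS with hj
    have hiM : miss H i := (hmem i).1 (S.min'_mem hS)
    have hjM : miss H j := (hmem j).1 (S.max'_mem hS)
    have hij : i ≤ j := S.min'_le _ (S.max'_mem hS)
    have hlt : ∀ k, k < i ∨ j < k → ¬ miss H k := by
      intro k hk hmk
      have h1 := S.min'_le k ((hmem k).2 hmk)
      have h2 := S.le_max' k ((hmem k).2 hmk)
      omega
    have hmid : ∀ k, i ≤ k → k ≤ j → miss H k := by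
      intro k h1 h2
      by_cases hki : k = i
      · rw [hki]; exact hiM
      refine ⟨le_trans h2 hjM.1, ?_⟩
      intro a b hab hH
      have hab' := hab
      have e1 : pos a = k ∨ pos b = k := by
        unfold ed at hab
        omega
      rcases e1 with e1 | e1
      · exact miss_convex hc hn hiM hjM (by omega) (by omega) (H.edge_vert hH)
      · exact miss_convex hc hn hiM hjM (by omega) (by omega) (H.edge_vert hH.symm)
    refine ⟨i, j, hij, hjM.1, ?_⟩
    have hjm := hjM.1
    refine SimpleGraph.Subgraph.ext ?_ ?_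
    · rw [TT_verts]
      ext a
      rw [mem_VT]
      have hle := pos_le a
      constructor
      · intro ha
        by_contra hcon
        push Not at hcon
        exact miss_convex hc hn hiM hjM hcon.1 hcon.2 ha
      · intro ha
        by_cases h0 : pos a = 0
        · have : a = none := pos_inj h0
          rw [this]; exact hn
        rcases ha with ha | ha
        · -- edge pos a - 1
          obtain ⟨b, hb⟩ := exists_pos (m := m) (k := pos a - 1) (by omega)
          have : H.Adj a b := not_miss hm (k := pos a - 1) (by omega)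
            (hlt _ (Or.inl (by omega))) (by unfold ed; omega)
          exact H.edge_vert this
        · by_cases hpm : pos a = m
          · have : H.Adj a none := not_miss hm (k := m) le_rfl
              (hlt _ (Or.inr (by omega))) (by unfold ed; rw [pos_none]; omega)
            exact H.edge_vert this
          · obtain ⟨b, hb⟩ := exists_pos (m := m) (k := pos a + 1) (by omega)
            have : H.Adj a b := not_miss hm (k := pos a) (by omega)
              (hlt _ (Or.inr ha)) (by unfold ed; omega)
            exact H.edge_vert this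
    · funext a b
      apply propext
      constructor
      · intro hab
        obtain ⟨_, k, hk⟩ := H.adj_sub hab
        refine ⟨k, hk, ?_⟩
        by_contra hcon
        push Not at hcon
        exact (hmid k hcon.1 hcon.2).2 a b hk hab
      · rintro ⟨k, hk, h⟩
        exact not_miss hm (ed_le hk) (hlt k h) hk
  · left
    push Not at hM
    have hadj : ∀ a b, (cyc m).Adj a b → H.Adj a b := by
      rintro a b ⟨_, k, hk⟩
      exact not_miss hm (ed_le hk) (hM k) hk
    refine SimpleGraph.Subgraph.ext ?_ ?_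
    · ext a
      simp only [SimpleGraph.Subgraph.verts_top, Set.mem_univ, iff_true]
      have hle := pos_le a
      by_cases h0 : pos a = 0
      · have : a = none := pos_inj h0
        rw [this]; exact hn
      · obtain ⟨b, hb⟩ := exists_pos (m := m) (k := pos a - 1) (by omega)
        have h1 : ed m (pos a - 1) a b := by unfold ed; omega
        exact H.edge_vert (hadj a b ⟨ed_ne hm h1, _, h1⟩)
    · funext a b
      apply propext
      exact ⟨fun h => H.adj_sub h, fun h => hadj a b h⟩

lemma TT_adj_iff (hm : 2 ≤ m) {i j : ℕ} (hij : i ≤ j) {k : ℕ} {a b : Option (Fin m)}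
    (hk : ed m k a b) : (TT hm i j hij).Adj a b ↔ k < i ∨ j < k := by
  constructor
  · rintro ⟨l, hl, h⟩
    rw [ed_unique hm hk hl]
    exact h
  · exact fun h => ⟨k, hk, h⟩

lemma TT_inj (hm : 2 ≤ m) {i j i' j' : ℕ} (hij : i ≤ j) (hij' : i' ≤ j') (hj : j ≤ m)
    (hj' : j' ≤ m) (h : TT hm i j hij = TT hm i' j' hij') : i = i' ∧ j = j' := by
  have key : ∀ k, k ≤ m → ((k < i ∨ j < k) ↔ (k < i' ∨ j' < k)) := by
    intro k hk
    obtain ⟨a, b, hab⟩ := exists_ed hk
    rw [← TT_adj_iff hm hij hab, ← TT_adj_iff hm hij' hab, h]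
  have k1 := key i (by omega)
  have k2 := key j (by omega)
  have k3 := key i' (by omega)
  have k4 := key j' (by omega)
  omega

lemma TT_ne_top (hm : 2 ≤ m) {i j : ℕ} (hij : i ≤ j) (hj : j ≤ m) : TT hm i j hij ≠ ⊤ := by
  intro h
  obtain ⟨a, b, hab⟩ := exists_ed (m := m) (k := i) (by omega)
  have h1 : (TT hm i j hij).Adj a b := by
    rw [h]
    exact ⟨ed_ne hm hab, i, hab⟩
  rw [TT_adj_iff hm hij hab] at h1
  omega

lemma TT_min (hm : 2 ≤ m) {i j : ℕ} (hij : i ≤ j) (hj : j ≤ m) : IsMin (TT hm i j hij) := by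
  refine ⟨TT_conn hm i j hij, ?_⟩
  intro H' hle hv hc
  have hn : none ∈ H'.verts := by
    rw [hv, TT_verts, mem_VT]; exact Or.inl (Nat.zero_le _)
  rcases cyc_class hm hc hn with h | ⟨i', j', hij', hj', h⟩
  · exfalso
    rw [h] at hle
    exact TT_ne_top hm hij hj (top_le_iff.1 hle)
  · have key : ∀ k, k ≤ m → (k < i' ∨ j' < k) → (k < i ∨ j < k) := by
      intro k hk hh
      obtain ⟨a, b, hab⟩ := exists_ed hk
      rw [← TT_adj_iff hm hij hab]
      rw [← TT_adj_iff hm hij' hab, ← h] at hh
      exact hle.2 hh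
    have keyv : ∀ k, k ≤ m → ((k ≤ i' ∨ j' < k) ↔ (k ≤ i ∨ j < k)) := by
      intro k hk
      obtain ⟨a, ha⟩ := exists_pos hk
      have h1 : a ∈ H'.verts ↔ a ∈ (TT hm i j hij).verts := by rw [hv]
      rw [h, TT_verts, TT_verts, mem_VT, mem_VT, ha] at h1
      exact h1
    have a1 := key i (by omega)
    have a2 := key j (by omega)
    have a3 := key i' (by omega)
    have a4 := key j' (by omega)
    have b1 : i' = i := by
      by_contra hne
      have hlt : i' < i := by omega
      have := keyv (i' + 1) (by omega)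
      omega
    have b2 : j' = j := by
      by_contra hne
      have hlt : j < j' := by omega
      have := keyv j' (by omega)
      omega
    subst b1 b2
    exact h

lemma top_not_min (hm : 2 ≤ m) : ¬ IsMin (⊤ : (cyc m).Subgraph) := by
  rintro ⟨_, h⟩
  refine TT_ne_top hm (le_refl 0) (Nat.zero_le m) (h _ le_top ?_ (TT_conn hm 0 0 le_rfl))
  ext a
  rw [TT_verts, mem_VT]
  simp only [SimpleGraph.Subgraph.verts_top, Set.mem_univ, iff_true]
  omega

lemma top_conn (hm : 2 ≤ m) : (⊤ : (cyc m).Subgraph).Connected := by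
  refine (TT_conn hm 0 0 le_rfl).mono le_top ?_
  ext a
  rw [TT_verts, mem_VT]
  simp only [SimpleGraph.Subgraph.verts_top, Set.mem_univ, iff_true]
  omega

lemma TT_induced_iff (hm : 2 ≤ m) {i j : ℕ} (hij : i ≤ j) (hj : j ≤ m) :
    (TT hm i j hij).IsInduced ↔ i < j := by
  constructor
  · intro h
    by_contra hcon
    have hij' : i = j := by omega
    subst hij'
    obtain ⟨a, b, hab⟩ := exists_ed (m := m) (k := i) (by omega)
    have h1 : (TT hm i i hij).Adj a b := h
      (by show _ ∈ VT i i; rw [mem_VT]; omega) (by show _ ∈ VT i i; rw [mem_VT]; omega)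
      ⟨ed_ne hm hab, i, hab⟩
    rw [TT_adj_iff hm hij hab] at h1
    omega
  · intro hlt a ha b hb hab
    obtain ⟨_, k, hk⟩ := hab
    rw [TT_adj_iff hm hij hk]
    have ha' : pos a ≤ i ∨ j < pos a := ha
    have hb' : pos b ≤ i ∨ j < pos b := hb
    unfold ed at hk
    omega

open Classical in
theorem SS_cyc_tree (hm : 2 ≤ m) (F : Set (Option (Fin m)) → ℚ) :
    SS @PTree (cyc m) (fun S => if none ∈ S then F S else 0) =
      ∑ p ∈ ((Finset.range (m + 1)) ×ˢ (Finset.range (m + 1))).filter (fun p => p.1 ≤ p.2),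
        F (VT p.1 p.2) := by
  unfold SS
  rw [← Finset.sum_filter]
  symm
  refine Finset.sum_bij
    (fun p hp => TT hm p.1 p.2 (Finset.mem_filter.1 hp).2) ?_ ?_ ?_ ?_
  · intro p hp
    have hp' := Finset.mem_filter.1 hp
    rw [Finset.mem_product, Finset.mem_range, Finset.mem_range] at hp'
    rw [Finset.mem_filter, mem_fam]
    exact ⟨TT_min hm hp'.2 (by omega), Or.inl (Nat.zero_le _)⟩
  · intro p hp q hq h
    have hp' := Finset.mem_filter.1 hp
    have hq' := Finset.mem_filter.1 hq
    rw [Finset.mem_product, Finset.mem_range, Finset.mem_range] at hp' hq'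
    have := TT_inj hm hp'.2 hq'.2 (by omega) (by omega) h
    exact Prod.ext this.1 this.2
  · intro H hH
    rw [Finset.mem_filter, mem_fam] at hH
    rcases cyc_class hm hH.1.1 hH.2 with h | ⟨i, j, hij, hj, h⟩
    · exfalso
      rw [h] at hH
      exact top_not_min hm hH.1
    · refine ⟨(i, j), ?_, ?_⟩
      · rw [Finset.mem_filter, Finset.mem_product, Finset.mem_range, Finset.mem_range]
        exact ⟨⟨by simp only; omega, by simp only; omega⟩, hij⟩
      · exact h.symm
  · intro p hp
    rfl

open Classical in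
theorem SS_cyc_ind (hm : 2 ≤ m) (F : Set (Option (Fin m)) → ℚ) :
    SS @PInd (cyc m) (fun S => if none ∈ S then F S else 0) = F Set.univ +
      ∑ p ∈ ((Finset.range (m + 1)) ×ˢ (Finset.range (m + 1))).filter (fun p => p.1 < p.2),
        F (VT p.1 p.2) := by
  unfold SS
  rw [← Finset.sum_filter]
  rw [← Finset.add_sum_erase _ _ (a := (⊤ : (cyc m).Subgraph))]
  · congr 1
    symm
    refine Finset.sum_bij
      (fun p hp => TT hm p.1 p.2 (le_of_lt (Finset.mem_filter.1 hp).2)) ?_ ?_ ?_ ?_
    · intro p hp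
      have hp' := Finset.mem_filter.1 hp
      rw [Finset.mem_product, Finset.mem_range, Finset.mem_range] at hp'
      have h2 := hp'.2
      exact Finset.mem_erase.2 ⟨TT_ne_top hm _ (by omega), Finset.mem_filter.2
        ⟨(mem_fam _ _ _).2 ⟨TT_conn hm _ _ _, (TT_induced_iff hm (le_of_lt h2)
        (by omega)).2 h2⟩, Or.inl (Nat.zero_le _)⟩⟩
    · intro p hp q hq h
      have hp' := Finset.mem_filter.1 hp
      have hq' := Finset.mem_filter.1 hq
      rw [Finset.mem_product, Finset.mem_range, Finset.mem_range] at hp' hq'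
      have := TT_inj hm (le_of_lt hp'.2) (le_of_lt hq'.2) (by omega) (by omega) h
      exact Prod.ext this.1 this.2
    · intro H hH
      rw [Finset.mem_erase, Finset.mem_filter, mem_fam] at hH
      rcases cyc_class hm hH.2.1.1 hH.2.2 with h | ⟨i, j, hij, hj, h⟩
      · exact absurd h hH.1
      · have hlt : i < j := by
          rw [← TT_induced_iff hm hij hj, ← h]
          exact hH.2.1.2
        refine ⟨(i, j), ?_, ?_⟩
        · rw [Finset.mem_filter, Finset.mem_product, Finset.mem_range, Finset.mem_range]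
          exact ⟨⟨by simp only; omega, by simp only; omega⟩, hlt⟩
        · exact h.symm
    · intro p hp
      rfl
  · rw [Finset.mem_filter, mem_fam]
    exact ⟨⟨top_conn hm, SimpleGraph.Subgraph.IsInduced.top⟩, by simp⟩

end cycle

/-! ### Pendant vertices at two hubs -/

section card
variable {V U : Type}

lemma glueSet_eq (S : Set V) (T : Set (Option U)) :
    glueSet S T = Sum.inl '' S ∪ Sum.inr '' {u | some u ∈ T} := by
  ext p
  rcases p with a | u
  · simp [glueSet]
  · simp [glueSet]

lemma ncard_glueSet [Finite V] [Finite U] (S : Set V) (T : Set (Option U)) :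
    (glueSet S T).ncard = S.ncard + {u | some u ∈ T}.ncard := by
  rw [glueSet_eq, Set.ncard_union_eq _ (Set.toFinite _) (Set.toFinite _),
    Set.ncard_image_of_injective _ Sum.inl_injective,
    Set.ncard_image_of_injective _ Sum.inr_injective]
  rw [Set.disjoint_left]
  rintro p ⟨a, _, rfl⟩ ⟨b, _, h⟩
  simp at h

lemma inl_mem_glueSet {S : Set V} {T : Set (Option U)} {a : V} :
    (Sum.inl a : V ⊕ U) ∈ glueSet S T ↔ a ∈ S := Iff.rfl

lemma core_star (T : Finset U) : {u | some u ∈ (insert none (some '' (T : Set U)) : Set (Option U))}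
    = (T : Set U) := by
  ext u; simp

lemma core_single (w : U) : {u | some u ∈ ({some w} : Set (Option U))} = {w} := by
  ext u; simp

lemma core_empty : {u : U | some u ∈ (∅ : Set (Option U))} = ∅ := by
  ext u; simp

lemma ncard_core [Finite U] (T : Set (Option U)) (h : none ∈ T) :
    T.ncard = {u | some u ∈ T}.ncard + 1 := by
  have e : T = insert none (some '' {u | some u ∈ T}) := by
    ext o
    rcases o with _ | u
    · simp [h]
    · simp
  conv_lhs => rw [e]
  rw [Set.ncard_insert_of_notMem (by simp) (Set.toFinite _),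
    Set.ncard_image_of_injective _ (Option.some_injective _)]

end card

lemma sum_card_finset (A : ℕ) : ∑ T : Finset (Fin A), ((T.card : ℚ)) = 2 ^ A * (A / 2) := by
  have h1 : ∑ T : Finset (Fin A), ((T.card : ℚ)) = ∑ T : Finset (Fin A), (((Tᶜ).card : ℚ)) := by
    refine Finset.sum_nbij' (fun T => Tᶜ) (fun T => Tᶜ) ?_ ?_ ?_ ?_ ?_ <;> simp
  have h2 : ∑ T : Finset (Fin A), (((Tᶜ).card : ℚ)) =
      ∑ T : Finset (Fin A), ((A : ℚ) - (T.card : ℚ)) := by
    refine Finset.sum_congr rfl (fun T _ => ?_)
    rw [Finset.card_compl, Fintype.card_fin, Nat.cast_sub]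
    simpa using Finset.card_le_univ T
  rw [h2, Finset.sum_sub_distrib, Finset.sum_const, Finset.card_univ, Fintype.card_finset,
    Fintype.card_fin, nsmul_eq_mul] at h1
  push_cast at h1
  linarith

lemma sum_affine (A : ℕ) (c : ℚ) :
    ∑ T : Finset (Fin A), (c + (T.card : ℚ)) = 2 ^ A * (c + A / 2) := by
  rw [Finset.sum_add_distrib, sum_card_finset, Finset.sum_const, Finset.card_univ,
    Fintype.card_finset, Fintype.card_fin, nsmul_eq_mul]
  push_cast
  ring

section SSlin
variable {P : ∀ {V : Type} (G : SimpleGraph V), G.Subgraph → Prop} {V : Type} [Finite V]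
  (G : SimpleGraph V)

lemma SS_congr {F F' : Set V → ℚ} (h : ∀ S, F S = F' S) : SS @P G F = SS @P G F' := by
  have : F = F' := funext h
  rw [this]

lemma SS_add (F F' : Set V → ℚ) : SS @P G (fun S => F S + F' S) = SS @P G F + SS @P G F' := by
  unfold SS
  rw [Finset.sum_add_distrib]

lemma SS_mul (c : ℚ) (F : Set V → ℚ) : SS @P G (fun S => c * F S) = c * SS @P G F := by
  unfold SS
  rw [Finset.mul_sum]

end SSlin

/-- hypothesis: the family of a star is the family of connected subgraphs -/
def StarFam (P : ∀ {V : Type} (G : SimpleGraph V), G.Subgraph → Prop) : Prop :=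
  ∀ (A : ℕ) (F : Set (Option (Fin A)) → ℚ),
    SS @P (star (Fin A)) F = ∑ T : Finset (Fin A), F (insert none (some '' (T : Set (Fin A))))
      + ∑ u : Fin A, F {some u}

open Classical in
theorem SS_wedge_star {P : ∀ {V : Type} (G : SimpleGraph V), G.Subgraph → Prop}
    (hP : GoodFam @P) (hS : StarFam @P) {V : Type} [Finite V] (G : SimpleGraph V) (x : V) (A : ℕ)
    (F : Set (V ⊕ Fin A) → ℚ) :
    SS @P (wedge G x (star (Fin A))) F = SS @P G (fun S => if x ∈ S then
      ∑ T : Finset (Fin A), F (glueSet S (insert none (some '' (T : Set (Fin A)))))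
        else F (glueSet S ∅)) + ∑ u : Fin A, F (glueSet ∅ {some u}) := by
  rw [SS_wedge hP]
  congr 1
  · refine SS_congr G (fun S => ?_)
    by_cases hx : x ∈ S
    · rw [if_pos hx, if_pos hx, hS]
      simp
    · rw [if_neg hx, if_neg hx]
  · rw [hS]
    simp

section main
variable {V : Type} [Finite V] (G : SimpleGraph V) (v c : V) (A : ℕ)

/-- `G` with `A` pendant vertices at `v` and `A` pendant vertices at `c` -/
def G3 : SimpleGraph ((V ⊕ Fin A) ⊕ Fin A) :=
  wedge (wedge G v (star (Fin A))) (Sum.inl c) (star (Fin A))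

open Classical in
theorem SS_G3 {P : ∀ {V : Type} (G : SimpleGraph V), G.Subgraph → Prop}
    (hP : GoodFam @P) (hS : StarFam @P) (κ : ℚ) :
    SS @P (G3 G v c A) (fun S => (S.ncard : ℚ) - κ) =
      SS @P G (fun S => if v ∈ S then
        (if c ∈ S then 4 ^ A * ((S.ncard : ℚ) + A - κ) else 2 ^ A * ((S.ncard : ℚ) + A / 2 - κ))
        else (if c ∈ S then 2 ^ A * ((S.ncard : ℚ) + A / 2 - κ) else (S.ncard : ℚ) - κ))
      + 2 * A * (1 - κ) := by
  have e1 : SS @P (G3 G v c A) (fun S => (S.ncard : ℚ) - κ) =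
      SS @P (wedge G v (star (Fin A))) (fun S => if Sum.inl c ∈ S then
        2 ^ A * ((S.ncard : ℚ) + A / 2 - κ) else (S.ncard : ℚ) - κ) + A * (1 - κ) := by
    unfold G3
    rw [SS_wedge_star hP hS]
    congr 1
    · refine SS_congr _ (fun S => ?_)
      by_cases hx : Sum.inl c ∈ S
      · rw [if_pos hx, if_pos hx]
        have : ∀ T : Finset (Fin A),
            (((glueSet S (insert none (some '' (T : Set (Fin A))))).ncard : ℚ) - κ) =
            ((S.ncard : ℚ) - κ) + T.card := by
          intro T
          rw [ncard_glueSet, core_star, Set.ncard_coe_finset]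
          push_cast
          ring
        rw [Finset.sum_congr rfl (fun T _ => this T), sum_affine]
        ring
      · rw [if_neg hx, if_neg hx, ncard_glueSet, core_empty]
        simp
    · have : ∀ u : Fin A, (((glueSet (∅ : Set (V ⊕ Fin A)) {some u}).ncard : ℚ) - κ) = 1 - κ := by
        intro u
        rw [ncard_glueSet, core_single]
        simp
      rw [Finset.sum_congr rfl (fun u _ => this u)]
      simp
      ring
  rw [e1, SS_wedge_star hP hS]
  have e2 : ∑ u : Fin A, (if Sum.inl c ∈ (glueSet (∅ : Set V) {some u} : Set (V ⊕ Fin A)) then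
      2 ^ A * (((glueSet (∅ : Set V) {some u} : Set (V ⊕ Fin A)).ncard : ℚ) + A / 2 - κ)
      else ((glueSet (∅ : Set V) {some u} : Set (V ⊕ Fin A)).ncard : ℚ) - κ) = A * (1 - κ) := by
    have : ∀ u : Fin A, (if Sum.inl c ∈ (glueSet (∅ : Set V) {some u} : Set (V ⊕ Fin A)) then
      2 ^ A * (((glueSet (∅ : Set V) {some u} : Set (V ⊕ Fin A)).ncard : ℚ) + A / 2 - κ)
      else ((glueSet (∅ : Set V) {some u} : Set (V ⊕ Fin A)).ncard : ℚ) - κ) = 1 - κ := by
      intro u
      rw [inl_mem_glueSet, if_neg (by simp), ncard_glueSet, core_single]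
      simp
    rw [Finset.sum_congr rfl (fun u _ => this u)]
    simp
    ring
  rw [e2]
  have e3 : SS @P G (fun S => if v ∈ S then
      ∑ T : Finset (Fin A), (if Sum.inl c ∈ glueSet S (insert none (some '' (T : Set (Fin A)))) then
        2 ^ A * (((glueSet S (insert none (some '' (T : Set (Fin A))))).ncard : ℚ) + A / 2 - κ)
        else ((glueSet S (insert none (some '' (T : Set (Fin A))))).ncard : ℚ) - κ)
      else (if Sum.inl c ∈ (glueSet S ∅ : Set (V ⊕ Fin A)) then
        2 ^ A * (((glueSet S ∅ : Set (V ⊕ Fin A)).ncard : ℚ) + A / 2 - κ)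
        else ((glueSet S ∅ : Set (V ⊕ Fin A)).ncard : ℚ) - κ)) =
      SS @P G (fun S => if v ∈ S then
        (if c ∈ S then 4 ^ A * ((S.ncard : ℚ) + A - κ) else 2 ^ A * ((S.ncard : ℚ) + A / 2 - κ))
        else (if c ∈ S then 2 ^ A * ((S.ncard : ℚ) + A / 2 - κ) else (S.ncard : ℚ) - κ)) := by
    refine SS_congr _ (fun S => ?_)
    have hc : ∀ T : Finset (Fin A),
        (((glueSet S (insert none (some '' (T : Set (Fin A))))).ncard : ℚ)) =
        (S.ncard : ℚ) + T.card := by
      intro T
      rw [ncard_glueSet, core_star, Set.ncard_coe_finset]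
      push_cast
      ring
    have h0 : (((glueSet S ∅ : Set (V ⊕ Fin A)).ncard : ℚ)) = (S.ncard : ℚ) := by
      rw [ncard_glueSet, core_empty]
      simp
    by_cases hv : v ∈ S
    · rw [if_pos hv, if_pos hv]
      by_cases hcS : c ∈ S
      · rw [if_pos hcS]
        have : ∀ T : Finset (Fin A),
            (if Sum.inl c ∈ glueSet S (insert none (some '' (T : Set (Fin A)))) then
            2 ^ A * (((glueSet S (insert none (some '' (T : Set (Fin A))))).ncard : ℚ)
              + A / 2 - κ)
            else ((glueSet S (insert none (some '' (T : Set (Fin A))))).ncard : ℚ) - κ) =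
            2 ^ A * (((S.ncard : ℚ) + A / 2 - κ) + T.card) := by
          intro T
          rw [if_pos (inl_mem_glueSet.2 hcS), hc T]
          ring
        rw [Finset.sum_congr rfl (fun T _ => this T), ← Finset.mul_sum, sum_affine]
        have h4 : (4 : ℚ) ^ A = 2 ^ A * 2 ^ A := by
          rw [← mul_pow]; norm_num
        rw [h4]
        ring
      · rw [if_neg hcS]
        have : ∀ T : Finset (Fin A),
            (if Sum.inl c ∈ glueSet S (insert none (some '' (T : Set (Fin A)))) then
            2 ^ A * (((glueSet S (insert none (some '' (T : Set (Fin A))))).ncard : ℚ)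
              + A / 2 - κ)
            else ((glueSet S (insert none (some '' (T : Set (Fin A))))).ncard : ℚ) - κ) =
            (((S.ncard : ℚ) - κ) + T.card) := by
          intro T
          rw [if_neg (fun h => hcS (inl_mem_glueSet.1 h)), hc T]
          ring
        rw [Finset.sum_congr rfl (fun T _ => this T), sum_affine]
        ring
    · rw [if_neg hv, if_neg hv]
      by_cases hcS : c ∈ S
      · rw [if_pos hcS, if_pos (inl_mem_glueSet.2 hcS), h0]
      · rw [if_neg hcS, if_neg (fun h => hcS (inl_mem_glueSet.1 h)), h0]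
  rw [e3]
  ring

end main

lemma eventually_pos (Φ b0 b1 c0 c1 θ e : ℚ) (h : 0 < Φ) :
    ∀ᶠ A : ℕ in Filter.atTop, 0 < 4 ^ A * Φ + 2 ^ A * (b0 - A / 2 * b1) + (c0 - A * c1)
      + e * (2 * A * (1 - (θ + A))) := by
  have T2 : ∀ k : ℕ, Filter.Tendsto (fun A : ℕ => ((A : ℝ)) ^ k / 2 ^ A) Filter.atTop (nhds 0) :=
    fun k => tendsto_pow_const_div_const_pow_of_one_lt k (by norm_num)
  have T4 : ∀ k : ℕ, Filter.Tendsto (fun A : ℕ => ((A : ℝ)) ^ k / 4 ^ A) Filter.atTop (nhds 0) :=
    fun k => tendsto_pow_const_div_const_pow_of_one_lt k (by norm_num)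
  have key : Filter.Tendsto (fun A : ℕ => (Φ : ℝ) + (b0 * (((A : ℝ)) ^ 0 / 2 ^ A)
      - b1 / 2 * (((A : ℝ)) ^ 1 / 2 ^ A) + c0 * (((A : ℝ)) ^ 0 / 4 ^ A)
      - c1 * (((A : ℝ)) ^ 1 / 4 ^ A) + 2 * e * (1 - θ) * (((A : ℝ)) ^ 1 / 4 ^ A)
      - 2 * e * (((A : ℝ)) ^ 2 / 4 ^ A))) Filter.atTop (nhds ((Φ : ℝ) + (b0 * 0
      - b1 / 2 * 0 + c0 * 0 - c1 * 0 + 2 * e * (1 - θ) * 0 - 2 * e * 0))) := by
    refine Filter.Tendsto.add tendsto_const_nhds ?_
    refine Filter.Tendsto.sub ?_ ((T4 2).const_mul _)
    refine Filter.Tendsto.add ?_ ((T4 1).const_mul _)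
    refine Filter.Tendsto.sub ?_ ((T4 1).const_mul _)
    refine Filter.Tendsto.add ?_ ((T4 0).const_mul _)
    refine Filter.Tendsto.sub ?_ ((T2 1).const_mul _)
    exact (T2 0).const_mul _
  have hpos : (0 : ℝ) < (Φ : ℝ) + (b0 * 0
      - b1 / 2 * 0 + c0 * 0 - c1 * 0 + 2 * e * (1 - θ) * 0 - 2 * e * 0) := by
    have : (0 : ℝ) < (Φ : ℝ) := by exact_mod_cast h
    linarith
  filter_upwards [key.eventually (lt_mem_nhds hpos)] with A hA
  have h4 : (0 : ℝ) < 4 ^ A := by positivity
  have h2 : (2 : ℝ) ^ A ≠ 0 := by positivity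
  have h42 : (4 : ℝ) ^ A = 2 ^ A * 2 ^ A := by
    rw [← mul_pow]; norm_num
  have h5 := mul_pos h4 hA
  have h6 : (4 : ℝ) ^ A * ((Φ : ℝ) + (b0 * (((A : ℝ)) ^ 0 / 2 ^ A)
      - b1 / 2 * (((A : ℝ)) ^ 1 / 2 ^ A) + c0 * (((A : ℝ)) ^ 0 / 4 ^ A)
      - c1 * (((A : ℝ)) ^ 1 / 4 ^ A) + 2 * e * (1 - θ) * (((A : ℝ)) ^ 1 / 4 ^ A)
      - 2 * e * (((A : ℝ)) ^ 2 / 4 ^ A))) =
      ((4 ^ A * Φ + 2 ^ A * (b0 - A / 2 * b1) + (c0 - A * c1)
      + e * (2 * A * (1 - (θ + A))) : ℚ) : ℝ) := by
    push_cast
    rw [h42]
    field_simp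
    ring
  rw [h6] at h5
  exact_mod_cast h5

open Classical in
lemma F_decomp {V : Type} (v c : V) (θ : ℚ) (A : ℕ) (S : Set V) :
    (if v ∈ S then (if c ∈ S then 4 ^ A * ((S.ncard : ℚ) + A - (θ + A))
      else 2 ^ A * ((S.ncard : ℚ) + A / 2 - (θ + A)))
      else (if c ∈ S then 2 ^ A * ((S.ncard : ℚ) + A / 2 - (θ + A))
        else (S.ncard : ℚ) - (θ + A))) =
    4 ^ A * (if v ∈ S ∧ c ∈ S then (S.ncard : ℚ) - θ else 0) +
    (2 ^ A * (if (v ∈ S ∧ c ∉ S) ∨ (v ∉ S ∧ c ∈ S) then (S.ncard : ℚ) - θ else 0) +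
    ((- (2 ^ A * ((A : ℚ) / 2))) * (if (v ∈ S ∧ c ∉ S) ∨ (v ∉ S ∧ c ∈ S) then (1 : ℚ) else 0) +
    ((if v ∉ S ∧ c ∉ S then (S.ncard : ℚ) - θ else 0) +
    (- (A : ℚ)) * (if v ∉ S ∧ c ∉ S then (1 : ℚ) else 0)))) := by
  by_cases hv : v ∈ S <;> by_cases hc : c ∈ S <;> simp [hv, hc] <;> ring

open Classical in
theorem SS_G3' {P : ∀ {V : Type} (G : SimpleGraph V), G.Subgraph → Prop}
    (hP : GoodFam @P) (hS : StarFam @P) {V : Type} [Finite V] (G : SimpleGraph V) (v c : V)
    (A : ℕ) (θ : ℚ) :
    SS @P (G3 G v c A) (fun S => (S.ncard : ℚ) - (θ + A)) =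
      4 ^ A * SS @P G (fun S => if v ∈ S ∧ c ∈ S then (S.ncard : ℚ) - θ else 0) +
      2 ^ A * (SS @P G (fun S => if (v ∈ S ∧ c ∉ S) ∨ (v ∉ S ∧ c ∈ S) then
        (S.ncard : ℚ) - θ else 0) - A / 2 * SS @P G (fun S =>
          if (v ∈ S ∧ c ∉ S) ∨ (v ∉ S ∧ c ∈ S) then (1 : ℚ) else 0)) +
      (SS @P G (fun S => if v ∉ S ∧ c ∉ S then (S.ncard : ℚ) - θ else 0) -
        A * SS @P G (fun S => if v ∉ S ∧ c ∉ S then (1 : ℚ) else 0)) +
      2 * A * (1 - (θ + A)) := by
  rw [SS_G3 G v c A hP hS, SS_congr G (F_decomp v c θ A), SS_add, SS_mul, SS_add, SS_mul, SS_add,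
    SS_mul, SS_add, SS_mul]
  ring

open Classical in
theorem G3_pos {P : ∀ {V : Type} (G : SimpleGraph V), G.Subgraph → Prop}
    (hP : GoodFam @P) (hS : StarFam @P) {V : Type} [Finite V] (G : SimpleGraph V) (v c : V)
    (θ : ℚ) (h : 0 < SS @P G (fun S => if v ∈ S ∧ c ∈ S then (S.ncard : ℚ) - θ else 0)) :
    ∀ᶠ A : ℕ in Filter.atTop, 0 < SS @P (G3 G v c A) (fun S => (S.ncard : ℚ) - (θ + A)) := by
  filter_upwards [eventually_pos _ (SS @P G (fun S => if (v ∈ S ∧ c ∉ S) ∨ (v ∉ S ∧ c ∈ S) then
        (S.ncard : ℚ) - θ else 0)) (SS @P G (fun S =>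
          if (v ∈ S ∧ c ∉ S) ∨ (v ∉ S ∧ c ∈ S) then (1 : ℚ) else 0))
          (SS @P G (fun S => if v ∉ S ∧ c ∉ S then (S.ncard : ℚ) - θ else 0))
          (SS @P G (fun S => if v ∉ S ∧ c ∉ S then (1 : ℚ) else 0)) θ 1 h] with A hA
  rw [SS_G3' hP hS]
  linarith

open Classical in
theorem G3_neg {P : ∀ {V : Type} (G : SimpleGraph V), G.Subgraph → Prop}
    (hP : GoodFam @P) (hS : StarFam @P) {V : Type} [Finite V] (G : SimpleGraph V) (v c : V)
    (θ : ℚ) (h : SS @P G (fun S => if v ∈ S ∧ c ∈ S then (S.ncard : ℚ) - θ else 0) < 0) :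
    ∀ᶠ A : ℕ in Filter.atTop, SS @P (G3 G v c A) (fun S => (S.ncard : ℚ) - (θ + A)) < 0 := by
  filter_upwards [eventually_pos _ (- SS @P G (fun S => if (v ∈ S ∧ c ∉ S) ∨ (v ∉ S ∧ c ∈ S) then
        (S.ncard : ℚ) - θ else 0)) (- SS @P G (fun S =>
          if (v ∈ S ∧ c ∉ S) ∨ (v ∉ S ∧ c ∈ S) then (1 : ℚ) else 0))
          (- SS @P G (fun S => if v ∉ S ∧ c ∉ S then (S.ncard : ℚ) - θ else 0))
          (- SS @P G (fun S => if v ∉ S ∧ c ∉ S then (1 : ℚ) else 0)) θ (-1)
          (neg_pos.2 h)] with A hA
  rw [SS_G3' hP hS]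
  linarith

lemma starFam_ind : StarFam @PInd := fun _ F => SS_star_ind F
lemma starFam_tree : StarFam @PTree := fun _ F => SS_star_tree F

/-! ### The core graph -/

lemma ncard_core_VT {m i j : ℕ} (hij : i ≤ j) (hj : j ≤ m) :
    {u : Fin m | some u ∈ VT i j}.ncard = m - (j - i) := by
  have h1 : Fin.val '' {u : Fin m | some u ∈ VT i j} =
      ((Finset.range m \ Finset.Ico i j : Finset ℕ) : Set ℕ) := by
    ext k
    simp only [Set.mem_image, Set.mem_ofPred_eq, mem_VT, pos_some, Finset.coe_sdiff,
      Finset.coe_range, Finset.coe_Ico, Set.mem_sdiff, Set.mem_Iio, Set.mem_Ico, not_and, not_lt]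
    constructor
    · rintro ⟨u, hu, rfl⟩
      have := u.2
      omega
    · rintro ⟨hk, h⟩
      exact ⟨⟨k, hk⟩, by simp only; omega, rfl⟩
  rw [← Set.ncard_image_of_injective _ Fin.val_injective, h1, Set.ncard_coe_finset,
    Finset.card_sdiff_of_subset]
  · simp
  · intro k hk
    rw [Finset.mem_Ico] at hk
    rw [Finset.mem_range]
    omega

lemma none_mem_VT {m i j : ℕ} : (none : Option (Fin m)) ∈ VT i j := Or.inl (Nat.zero_le _)

lemma ncard_VT {m i j : ℕ} (hij : i ≤ j) (hj : j ≤ m) :
    (((VT i j : Set (Option (Fin m))).ncard : ℕ) : ℚ) = m + 1 - ((j : ℚ) - i) := by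
  rw [ncard_core _ none_mem_VT, ncard_core_VT hij hj]
  rw [Nat.cast_add, Nat.cast_sub (by omega), Nat.cast_sub hij]
  push_cast
  ring

open Classical in
lemma tri2_tree (q : ℚ) : SS @PTree (cyc 2) (fun T => if none ∈ T then
    q + ({u | some u ∈ T}.ncard : ℚ) else 0) = 6 * q + 8 := by
  rw [SS_cyc_tree le_rfl]
  have h : ∀ p ∈ ((Finset.range (2 + 1)) ×ˢ (Finset.range (2 + 1))).filter
      (fun p => p.1 ≤ p.2),
      (q + ({u : Fin 2 | some u ∈ VT p.1 p.2}.ncard : ℚ)) = q + (2 - ((p.2 : ℚ) - p.1)) := by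
    intro p hp
    rw [Finset.mem_filter, Finset.mem_product, Finset.mem_range, Finset.mem_range] at hp
    rw [ncard_core_VT hp.2 (by omega), Nat.cast_sub (by omega), Nat.cast_sub hp.2]
    norm_num
  rw [Finset.sum_congr rfl h, Finset.sum_filter, Finset.sum_product]
  simp [Finset.sum_range_succ]
  ring

open Classical in
lemma tri2_ind (q : ℚ) : SS @PInd (cyc 2) (fun T => if none ∈ T then
    q + ({u | some u ∈ T}.ncard : ℚ) else 0) = 4 * q + 4 := by
  rw [SS_cyc_ind le_rfl]
  have h : ∀ p ∈ ((Finset.range (2 + 1)) ×ˢ (Finset.range (2 + 1))).filter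
      (fun p => p.1 < p.2),
      (q + ({u : Fin 2 | some u ∈ VT p.1 p.2}.ncard : ℚ)) = q + (2 - ((p.2 : ℚ) - p.1)) := by
    intro p hp
    rw [Finset.mem_filter, Finset.mem_product, Finset.mem_range, Finset.mem_range] at hp
    rw [ncard_core_VT (le_of_lt hp.2) (by omega), Nat.cast_sub (by omega),
      Nat.cast_sub (le_of_lt hp.2)]
    norm_num
  have h2 : {u : Fin 2 | some u ∈ (Set.univ : Set (Option (Fin 2)))}.ncard = 2 := by
    have : {u : Fin 2 | some u ∈ (Set.univ : Set (Option (Fin 2)))} = Set.univ := by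
      ext u; simp
    rw [this, Set.ncard_univ]
    simp
  rw [Finset.sum_congr rfl h, Finset.sum_filter, Finset.sum_product, h2]
  simp [Finset.sum_range_succ]
  ring

/-- the core graph: a cycle with `m+1` vertices and a triangle attached at `x` -/
def G1 (m : ℕ) (x : Option (Fin m)) : SimpleGraph (Option (Fin m) ⊕ Fin 2) :=
  wedge (cyc m) x (cyc 2)

open Classical in
/-- the sum over the core -/
theorem SS_G1 {P : ∀ {V : Type} (G : SimpleGraph V), G.Subgraph → Prop}
    (hP : GoodFam @P) (ρ σ : ℚ) (h2 : ∀ q : ℚ, SS @P (cyc 2) (fun T => if none ∈ T then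
    q + ({u | some u ∈ T}.ncard : ℚ) else 0) = ρ * q + σ) (m : ℕ) (x c : Option (Fin m)) (θ : ℚ) :
    SS @P (G1 m x) (fun S => if Sum.inl none ∈ S ∧ Sum.inl c ∈ S then (S.ncard : ℚ) - θ else 0) =
    SS @P (cyc m) (fun S => if none ∈ S then (if c ∈ S then (if x ∈ S then
      ρ * ((S.ncard : ℚ) - θ) + σ else (S.ncard : ℚ) - θ) else 0) else 0) := by
  unfold G1
  rw [SS_wedge hP]
  have e1 : SS @P (cyc 2) (fun T => if none ∈ T then (0 : ℚ) else
      (if (Sum.inl none : Option (Fin m) ⊕ Fin 2) ∈ glueSet ∅ T ∧ Sum.inl c ∈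
        (glueSet ∅ T : Set (Option (Fin m) ⊕ Fin 2)) then
        ((glueSet ∅ T : Set (Option (Fin m) ⊕ Fin 2)).ncard : ℚ) - θ else 0)) = 0 := by
    unfold SS
    refine Finset.sum_eq_zero (fun H _ => ?_)
    beta_reduce
    by_cases h : none ∈ H.verts
    · rw [if_pos h]
    · rw [if_neg h, if_neg (fun h => h.1)]
  rw [e1, add_zero]
  refine SS_congr _ (fun S => ?_)
  by_cases hx : x ∈ S
  · rw [if_pos hx]
    by_cases hn : none ∈ S
    · by_cases hc : c ∈ S
      · rw [if_pos hn, if_pos hc, if_pos hx, ← h2]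
        refine SS_congr _ (fun T => ?_)
        by_cases hT : none ∈ T
        · rw [if_pos hT, if_pos hT, if_pos ⟨inl_mem_glueSet.2 hn, inl_mem_glueSet.2 hc⟩,
            ncard_glueSet]
          push_cast
          ring
        · rw [if_neg hT, if_neg hT]
      · rw [if_pos hn, if_neg hc]
        unfold SS
        refine Finset.sum_eq_zero (fun H _ => ?_)
        beta_reduce
        rw [if_neg (c := Sum.inl none ∈ glueSet S H.verts ∧ Sum.inl c ∈ glueSet S H.verts)
          (fun h => hc (inl_mem_glueSet.1 h.2))]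
        simp
    · rw [if_neg hn]
      unfold SS
      refine Finset.sum_eq_zero (fun H _ => ?_)
      beta_reduce
      rw [if_neg (c := Sum.inl none ∈ glueSet S H.verts ∧ Sum.inl c ∈ glueSet S H.verts)
        (fun h => hn (inl_mem_glueSet.1 h.1))]
      simp
  · rw [if_neg hx]
    by_cases hn : none ∈ S
    · by_cases hc : c ∈ S
      · rw [if_pos hn, if_pos hc, if_neg hx, if_pos ⟨inl_mem_glueSet.2 hn, inl_mem_glueSet.2 hc⟩,
          ncard_glueSet, core_empty]
        simp
      · rw [if_pos hn, if_neg hc, if_neg (fun h => hc (inl_mem_glueSet.1 h.2))]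
    · rw [if_neg hn, if_neg (fun h => hn (inl_mem_glueSet.1 h.1))]

lemma tri_le (p q : ℚ) (a k : ℕ) :
    ∑ i ∈ Finset.Ico a (a + k), ∑ j ∈ Finset.Ico i (a + k), (p + q * ((j : ℚ) - i)) =
      p * (k * (k + 1) / 2) + q * ((k - 1) * k * (k + 1) / 6) := by
  induction k with
  | zero => simp
  | succ k ih =>
    rw [← add_assoc, Finset.sum_Ico_succ_top (by omega)]
    have h1 : ∀ i ∈ Finset.Ico a (a + k), ∑ j ∈ Finset.Ico i (a + k + 1), (p + q * ((j : ℚ) - i))
        = ∑ j ∈ Finset.Ico i (a + k), (p + q * ((j : ℚ) - i)) + (p + q * (((a + k : ℕ) : ℚ) - i)) := by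
      intro i hi
      rw [Finset.mem_Ico] at hi
      rw [Finset.sum_Ico_succ_top (by omega)]
    rw [Finset.sum_congr rfl h1, Finset.sum_add_distrib, ih]
    have h2 : ∀ k : ℕ, ∀ b : ℚ, ∑ i ∈ Finset.Ico a (a + k), (p + q * (b - i)) =
        k * p + q * (k * b - (k * a + k * (k - 1) / 2)) := by
      intro k b
      induction k with
      | zero => simp
      | succ k ih =>
        rw [← add_assoc, Finset.sum_Ico_succ_top (by omega), ih]
        push_cast
        ring
    rw [h2]
    have h3 : Finset.Ico (a + k) (a + k + 1) = {a + k} := by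
      ext t; simp
    rw [h3, Finset.sum_singleton]
    push_cast
    ring

lemma tri_lt (p q : ℚ) (a k : ℕ) :
    ∑ i ∈ Finset.Ico a (a + k), ∑ j ∈ Finset.Ico (i + 1) (a + k), (p + q * ((j : ℚ) - i)) =
      p * (k * (k - 1) / 2) + q * ((k - 1) * k * (k + 1) / 6) := by
  have h := tri_le p q a k
  have h1 : ∀ i ∈ Finset.Ico a (a + k), ∑ j ∈ Finset.Ico i (a + k), (p + q * ((j : ℚ) - i))
      = p + ∑ j ∈ Finset.Ico (i + 1) (a + k), (p + q * ((j : ℚ) - i)) := by
    intro i hi
    rw [Finset.mem_Ico] at hi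
    rw [Finset.sum_eq_sum_Ico_succ_bot (by omega)]
    ring
  rw [Finset.sum_congr rfl h1, Finset.sum_add_distrib, Finset.sum_const, Nat.card_Ico] at h
  have h3 : a + k - a = k := by omega
  rw [h3, nsmul_eq_mul] at h
  linarith

lemma rect (p q : ℚ) (a k l : ℕ) :
    ∑ i ∈ Finset.Ico a (a + k), ∑ j ∈ Finset.Ico (a + k) (a + k + l), (p + q * ((j : ℚ) - i)) =
      p * (k * l) + q * (k * l * (k + l) / 2) := by
  have h2 : ∀ k : ℕ, ∀ a : ℕ, ∑ i ∈ Finset.Ico a (a + k), (i : ℚ) = k * a + k * (k - 1) / 2 := by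
    intro k a
    induction k with
    | zero => simp
    | succ k ih =>
      rw [← add_assoc, Finset.sum_Ico_succ_top (by omega), ih]
      push_cast
      ring
  simp only [Finset.sum_add_distrib, ← Finset.mul_sum, Finset.sum_sub_distrib, Finset.sum_const,
    Nat.card_Ico, h2, nsmul_eq_mul]
  have h3 : a + k - a = k := by omega
  have h4 : a + k + l - (a + k) = l := by omega
  rw [h3, h4]
  push_cast
  ring

/-! ### Evaluation and the theorem -/

/-- the weight of the pair `(i, j)` -/
def W (ρ σ δ : ℚ) (i j : ℕ) : ℚ :=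
  if (2000 ≤ i ∨ j < 2000) then
    (if (1000 ≤ i ∨ j < 1000) then ρ * (δ - ((j : ℚ) - i)) + σ else δ - ((j : ℚ) - i)) else 0

lemma sumW_le (ρ σ δ : ℚ) : ∑ i ∈ Finset.range 9000, ∑ j ∈ Finset.Ico i 9000, W ρ σ δ i j =
    (ρ * δ + σ) * 25504500 + (- ρ) * 57499998500 + δ * 1000000 - 1000000000 := by
  rw [Finset.range_eq_Ico, ← Finset.sum_Ico_consecutive _ (show 0 ≤ 1000 by norm_num)
    (show 1000 ≤ 9000 by norm_num), ← Finset.sum_Ico_consecutive _ (show 1000 ≤ 2000 by norm_num)
    (show 2000 ≤ 9000 by norm_num)]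
  have h1 : ∑ i ∈ Finset.Ico 0 1000, ∑ j ∈ Finset.Ico i 9000, W ρ σ δ i j =
      ∑ i ∈ Finset.Ico (0 : ℕ) (0 + 1000), ∑ j ∈ Finset.Ico (i : ℕ) (0 + 1000),
        ((ρ * δ + σ) + (- ρ) * ((j : ℚ) - (i : ℚ))) +
      ∑ i ∈ Finset.Ico (0 : ℕ) (0 + 1000), ∑ j ∈ Finset.Ico (0 + 1000 : ℕ) (0 + 1000 + 1000),
        (δ + (-1) * ((j : ℚ) - (i : ℚ))) := by
    rw [← Finset.sum_add_distrib]
    refine Finset.sum_congr rfl (fun i hi => ?_)
    rw [Finset.mem_Ico] at hi
    rw [← Finset.sum_Ico_consecutive _ (show i ≤ 1000 by omega)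
      (show 1000 ≤ 9000 by norm_num), ← Finset.sum_Ico_consecutive _ (show 1000 ≤ 2000 by norm_num)
      (show 2000 ≤ 9000 by norm_num)]
    have e3 : ∑ j ∈ Finset.Ico 2000 9000, W ρ σ δ i j = 0 := by
      refine Finset.sum_eq_zero (fun j hj => ?_)
      rw [Finset.mem_Ico] at hj
      unfold W
      rw [if_neg (by omega)]
    rw [e3, add_zero]
    congr 1
    · refine Finset.sum_congr rfl (fun j hj => ?_)
      rw [Finset.mem_Ico] at hj
      unfold W
      rw [if_pos (by omega), if_pos (by omega)]
      ring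
    · refine Finset.sum_congr rfl (fun j hj => ?_)
      rw [Finset.mem_Ico] at hj
      unfold W
      rw [if_pos (by omega), if_neg (by omega)]
      ring
  have h2 : ∑ i ∈ Finset.Ico 1000 2000, ∑ j ∈ Finset.Ico i 9000, W ρ σ δ i j =
      ∑ i ∈ Finset.Ico (1000 : ℕ) (1000 + 1000), ∑ j ∈ Finset.Ico (i : ℕ) (1000 + 1000),
        ((ρ * δ + σ) + (- ρ) * ((j : ℚ) - (i : ℚ))) := by
    refine Finset.sum_congr rfl (fun i hi => ?_)
    rw [Finset.mem_Ico] at hi
    rw [← Finset.sum_Ico_consecutive _ (show i ≤ 2000 by omega) (show 2000 ≤ 9000 by norm_num)]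
    have e3 : ∑ j ∈ Finset.Ico 2000 9000, W ρ σ δ i j = 0 := by
      refine Finset.sum_eq_zero (fun j hj => ?_)
      rw [Finset.mem_Ico] at hj
      unfold W
      rw [if_neg (by omega)]
    rw [e3, add_zero]
    refine Finset.sum_congr rfl (fun j hj => ?_)
    rw [Finset.mem_Ico] at hj
    unfold W
    rw [if_pos (by omega), if_pos (by omega)]
    ring
  have h3 : ∑ i ∈ Finset.Ico 2000 9000, ∑ j ∈ Finset.Ico i 9000, W ρ σ δ i j =
      ∑ i ∈ Finset.Ico (2000 : ℕ) (2000 + 7000), ∑ j ∈ Finset.Ico (i : ℕ) (2000 + 7000),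
        ((ρ * δ + σ) + (- ρ) * ((j : ℚ) - (i : ℚ))) := by
    refine Finset.sum_congr rfl (fun i hi => ?_)
    rw [Finset.mem_Ico] at hi
    refine Finset.sum_congr rfl (fun j hj => ?_)
    rw [Finset.mem_Ico] at hj
    unfold W
    rw [if_pos (by omega), if_pos (by omega)]
    ring
  rw [h1, h2, h3, tri_le, tri_le, tri_le, rect]
  push_cast
  ring

lemma sumW_lt (ρ σ δ : ℚ) :
    ∑ i ∈ Finset.range 9000, ∑ j ∈ Finset.Ico (i + 1) 9000, W ρ σ δ i j =
    (ρ * δ + σ) * 25495500 + (- ρ) * 57499998500 + δ * 1000000 - 1000000000 := by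
  rw [Finset.range_eq_Ico, ← Finset.sum_Ico_consecutive _ (show 0 ≤ 1000 by norm_num)
    (show 1000 ≤ 9000 by norm_num), ← Finset.sum_Ico_consecutive _ (show 1000 ≤ 2000 by norm_num)
    (show 2000 ≤ 9000 by norm_num)]
  have h1 : ∑ i ∈ Finset.Ico 0 1000, ∑ j ∈ Finset.Ico (i + 1) 9000, W ρ σ δ i j =
      ∑ i ∈ Finset.Ico (0 : ℕ) (0 + 1000), ∑ j ∈ Finset.Ico (i + 1 : ℕ) (0 + 1000),
        ((ρ * δ + σ) + (- ρ) * ((j : ℚ) - (i : ℚ))) +
      ∑ i ∈ Finset.Ico (0 : ℕ) (0 + 1000), ∑ j ∈ Finset.Ico (0 + 1000 : ℕ) (0 + 1000 + 1000),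
        (δ + (-1) * ((j : ℚ) - (i : ℚ))) := by
    rw [← Finset.sum_add_distrib]
    refine Finset.sum_congr rfl (fun i hi => ?_)
    rw [Finset.mem_Ico] at hi
    rw [← Finset.sum_Ico_consecutive _ (show i + 1 ≤ 1000 by omega)
      (show 1000 ≤ 9000 by norm_num), ← Finset.sum_Ico_consecutive _ (show 1000 ≤ 2000 by norm_num)
      (show 2000 ≤ 9000 by norm_num)]
    have e3 : ∑ j ∈ Finset.Ico 2000 9000, W ρ σ δ i j = 0 := by
      refine Finset.sum_eq_zero (fun j hj => ?_)
      rw [Finset.mem_Ico] at hj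
      unfold W
      rw [if_neg (by omega)]
    rw [e3, add_zero]
    congr 1
    · refine Finset.sum_congr rfl (fun j hj => ?_)
      rw [Finset.mem_Ico] at hj
      unfold W
      rw [if_pos (by omega), if_pos (by omega)]
      ring
    · refine Finset.sum_congr rfl (fun j hj => ?_)
      rw [Finset.mem_Ico] at hj
      unfold W
      rw [if_pos (by omega), if_neg (by omega)]
      ring
  have h2 : ∑ i ∈ Finset.Ico 1000 2000, ∑ j ∈ Finset.Ico (i + 1) 9000, W ρ σ δ i j =
      ∑ i ∈ Finset.Ico (1000 : ℕ) (1000 + 1000), ∑ j ∈ Finset.Ico (i + 1 : ℕ) (1000 + 1000),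
        ((ρ * δ + σ) + (- ρ) * ((j : ℚ) - (i : ℚ))) := by
    refine Finset.sum_congr rfl (fun i hi => ?_)
    rw [Finset.mem_Ico] at hi
    rw [← Finset.sum_Ico_consecutive _ (show i + 1 ≤ 2000 by omega)
      (show 2000 ≤ 9000 by norm_num)]
    have e3 : ∑ j ∈ Finset.Ico 2000 9000, W ρ σ δ i j = 0 := by
      refine Finset.sum_eq_zero (fun j hj => ?_)
      rw [Finset.mem_Ico] at hj
      unfold W
      rw [if_neg (by omega)]
    rw [e3, add_zero]
    refine Finset.sum_congr rfl (fun j hj => ?_)
    rw [Finset.mem_Ico] at hj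
    unfold W
    rw [if_pos (by omega), if_pos (by omega)]
    ring
  have h3 : ∑ i ∈ Finset.Ico 2000 9000, ∑ j ∈ Finset.Ico (i + 1) 9000, W ρ σ δ i j =
      ∑ i ∈ Finset.Ico (2000 : ℕ) (2000 + 7000), ∑ j ∈ Finset.Ico (i + 1 : ℕ) (2000 + 7000),
        ((ρ * δ + σ) + (- ρ) * ((j : ℚ) - (i : ℚ))) := by
    refine Finset.sum_congr rfl (fun i hi => ?_)
    rw [Finset.mem_Ico] at hi
    refine Finset.sum_congr rfl (fun j hj => ?_)
    rw [Finset.mem_Ico] at hj
    unfold W
    rw [if_pos (by omega), if_pos (by omega)]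
    ring
  rw [h1, h2, h3, tri_lt, tri_lt, tri_lt, rect]
  push_cast
  ring

/-- the vertex carrying the triangle (position 1000) -/
def xx : Option (Fin 8999) := some ⟨999, by norm_num⟩
/-- the second hub (position 2000); the first hub is `none` (position 0) -/
def cc : Option (Fin 8999) := some ⟨1999, by norm_num⟩

lemma pos_xx : pos xx = 1000 := rfl
lemma pos_cc : pos cc = 2000 := rfl

open Classical in
lemma val_VT (ρ σ : ℚ) {i j : ℕ} (hij : i ≤ j) (hj : j ≤ 8999) :
    (if cc ∈ VT i j then (if xx ∈ VT i j then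
      ρ * (((VT i j : Set (Option (Fin 8999))).ncard : ℚ) - 6756) + σ
      else ((VT i j : Set (Option (Fin 8999))).ncard : ℚ) - 6756) else 0) = W ρ σ 2244 i j := by
  have e1 : (((VT i j : Set (Option (Fin 8999))).ncard : ℚ) - 6756) =
      2244 - ((j : ℚ) - i) := by
    rw [ncard_VT hij hj]; push_cast; ring
  unfold W
  rw [e1]
  congr 1
  congr 1

set_option maxRecDepth 100000 in
open Classical in
theorem core_tree : SS @PTree (G1 8999 xx)
    (fun S => if Sum.inl none ∈ S ∧ Sum.inl cc ∈ S then (S.ncard : ℚ) - 6756 else 0) < 0 := by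
  rw [SS_G1 good_tree 6 8 tri2_tree, SS_cyc_tree (by norm_num)]
  have h : ∀ p ∈ ((Finset.range (8999 + 1)) ×ˢ (Finset.range (8999 + 1))).filter
      (fun p => p.1 ≤ p.2), (if cc ∈ VT p.1 p.2 then (if xx ∈ VT p.1 p.2 then
      6 * (((VT p.1 p.2 : Set (Option (Fin 8999))).ncard : ℚ) - 6756) + 8
      else ((VT p.1 p.2 : Set (Option (Fin 8999))).ncard : ℚ) - 6756) else 0) =
      W 6 8 2244 p.1 p.2 := by
    intro p hp
    rw [Finset.mem_filter, Finset.mem_product, Finset.mem_range, Finset.mem_range] at hp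
    exact val_VT 6 8 hp.2 (by omega)
  rw [Finset.sum_congr rfl h, Finset.sum_filter, Finset.sum_product]
  have h2 : ∀ i ∈ Finset.range (8999 + 1), (∑ j ∈ Finset.range (8999 + 1),
      if i ≤ j then W 6 8 2244 i j else 0) = ∑ j ∈ Finset.Ico i 9000, W 6 8 2244 i j := by
    intro i hi
    rw [← Finset.sum_filter]
    refine Finset.sum_congr ?_ (fun _ _ => rfl)
    ext j
    rw [Finset.mem_filter, Finset.mem_range, Finset.mem_Ico]
    omega
  rw [Finset.sum_congr rfl h2, sumW_le]
  norm_num

set_option maxRecDepth 100000 in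
open Classical in
theorem core_ind : 0 < SS @PInd (G1 8999 xx)
    (fun S => if Sum.inl none ∈ S ∧ Sum.inl cc ∈ S then (S.ncard : ℚ) - 6756 else 0) := by
  rw [SS_G1 good_ind 4 4 tri2_ind, SS_cyc_ind (by norm_num)]
  have h : ∀ p ∈ ((Finset.range (8999 + 1)) ×ˢ (Finset.range (8999 + 1))).filter
      (fun p => p.1 < p.2), (if cc ∈ VT p.1 p.2 then (if xx ∈ VT p.1 p.2 then
      4 * (((VT p.1 p.2 : Set (Option (Fin 8999))).ncard : ℚ) - 6756) + 4
      else ((VT p.1 p.2 : Set (Option (Fin 8999))).ncard : ℚ) - 6756) else 0) =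
      W 4 4 2244 p.1 p.2 := by
    intro p hp
    rw [Finset.mem_filter, Finset.mem_product, Finset.mem_range, Finset.mem_range] at hp
    exact val_VT 4 4 (le_of_lt hp.2) (by omega)
  rw [Finset.sum_congr rfl h, Finset.sum_filter, Finset.sum_product]
  have h2 : ∀ i ∈ Finset.range (8999 + 1), (∑ j ∈ Finset.range (8999 + 1),
      if i < j then W 4 4 2244 i j else 0) = ∑ j ∈ Finset.Ico (i + 1) 9000, W 4 4 2244 i j := by
    intro i hi
    rw [← Finset.sum_filter]
    refine Finset.sum_congr ?_ (fun _ _ => rfl)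
    ext j
    rw [Finset.mem_filter, Finset.mem_range, Finset.mem_Ico]
    omega
  rw [Finset.sum_congr rfl h2, sumW_lt]
  rw [if_pos (Set.mem_univ _), if_pos (Set.mem_univ _), Set.ncard_univ]
  simp only [Nat.card_eq_fintype_card, Fintype.card_option, Fintype.card_fin]
  norm_num

section link
variable {V : Type} [Fintype V] (G : SimpleGraph V)

open Classical in
lemma sum_sub (f : ℕ → ℚ) :
    ∑ k ∈ Finset.Icc 1 (Fintype.card V), f k * (numSubtrees G k : ℚ) =
      SS @PTree G (fun S => f S.ncard) := by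
  have h1 : ∀ k, (numSubtrees G k : ℚ) =
      (((fam @PTree G).filter (fun H => H.verts.ncard = k)).card : ℚ) := by
    intro k
    unfold numSubtrees
    congr 1
    rw [← Set.ncard_coe_finset]
    congr 1
    ext H
    rw [Finset.mem_coe, Finset.mem_filter, mem_fam]
    simp only [Set.mem_ofPred_eq]
    rw [isTree_iff_isMin]
    rfl
  unfold SS
  have hmaps : ∀ H ∈ fam @PTree G, H.verts.ncard ∈ Finset.Icc 1 (Fintype.card V) := by
    intro H hH
    rw [mem_fam] at hH
    rw [Finset.mem_Icc]
    constructor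
    · exact (Set.ncard_pos (Set.toFinite _)).2 hH.1.nonempty
    · rw [← Nat.card_eq_fintype_card]
      exact Set.ncard_le_card _
  rw [← Finset.sum_fiberwise_of_maps_to hmaps]
  refine Finset.sum_congr rfl (fun k _ => ?_)
  have h2 : ∀ H ∈ (fam @PTree G).filter (fun H => H.verts.ncard = k),
      (fun S : Set V => f S.ncard) H.verts = f k := by
    intro H hH
    beta_reduce
    rw [(Finset.mem_filter.1 hH).2]
  rw [h1, Finset.sum_congr rfl h2, Finset.sum_const, nsmul_eq_mul, mul_comm]

open Classical in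
lemma sum_con (f : ℕ → ℚ) : ∑ S ∈ connectedSets G, f S.card = SS @PInd G (fun S => f S.ncard) := by
  unfold SS
  symm
  refine Finset.sum_nbij' (fun H => H.verts.toFinset)
    (fun S => (⊤ : G.Subgraph).induce (S : Set V)) ?_ ?_ ?_ ?_ ?_
  · intro H hH
    rw [mem_fam] at hH
    unfold connectedSets
    rw [Finset.mem_filter]
    refine ⟨Finset.mem_univ _, ?_, ?_⟩
    · rw [Set.toFinset_nonempty]
      exact hH.1.nonempty
    · rw [Set.coe_toFinset, SimpleGraph.connected_induce_iff, hH.2.induce_top_verts]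
      exact hH.1
  · intro S hS
    unfold connectedSets at hS
    rw [Finset.mem_filter, SimpleGraph.connected_induce_iff] at hS
    rw [mem_fam]
    exact ⟨hS.2.2, SimpleGraph.Subgraph.isInduced_iff_exists_eq_induce_top _ |>.2 ⟨_, rfl⟩⟩
  · intro H hH
    rw [mem_fam] at hH
    simp only [Set.coe_toFinset]
    exact hH.2.induce_top_verts
  · intro S _
    ext a
    simp
  · intro H _
    beta_reduce
    rw [Set.ncard_eq_toFinset_card']

lemma mean_lt (κ : ℚ) (h : SS @PTree G (fun S => (S.ncard : ℚ) - κ) < 0) :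
    meanSubtreeOrder G < κ := by
  have h1 := sum_sub G (fun k => (k : ℚ))
  have h2 := sum_sub G (fun _ => (1 : ℚ))
  simp only [one_mul] at h2
  unfold meanSubtreeOrder
  rw [h1, h2]
  unfold SS at *
  rw [Finset.sum_sub_distrib] at h
  have hne : (fam @PTree G).Nonempty := by
    by_contra hcon
    rw [Finset.not_nonempty_iff_eq_empty] at hcon
    rw [hcon] at h
    simp at h
  have hpos : (0 : ℚ) < ∑ _H ∈ fam @PTree G, (1 : ℚ) := by
    rw [Finset.sum_const, nsmul_eq_mul, mul_one]
    exact_mod_cast hne.card_pos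
  rw [div_lt_iff₀ hpos, Finset.mul_sum]
  simp only [mul_one]
  linarith

lemma lt_av (κ : ℚ) (h : 0 < SS @PInd G (fun S => (S.ncard : ℚ) - κ)) :
    κ < averageConnectedSet G := by
  have h1 := sum_con G (fun k => (k : ℚ))
  have h2 := sum_con G (fun _ => (1 : ℚ))
  unfold averageConnectedSet
  have h3 : ((connectedSets G).card : ℚ) = SS @PInd G (fun _ => (1 : ℚ)) := by
    rw [← h2, Finset.sum_const, nsmul_eq_mul, mul_one]
  rw [h1, h3]
  unfold SS at *
  rw [Finset.sum_sub_distrib] at h
  have hne : (fam @PInd G).Nonempty := by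
    by_contra hcon
    rw [Finset.not_nonempty_iff_eq_empty] at hcon
    rw [hcon] at h
    simp at h
  have hpos : (0 : ℚ) < ∑ _H ∈ fam @PInd G, (1 : ℚ) := by
    rw [Finset.sum_const, nsmul_eq_mul, mul_one]
    exact_mod_cast hne.card_pos
  rw [lt_div_iff₀ hpos, Finset.mul_sum]
  simp only [mul_one]
  linarith

end link

section connected

lemma conn_top {V : Type*} (G : SimpleGraph V) : (⊤ : G.Subgraph).Connected ↔ G.Connected := by
  rw [conn_iff, SimpleGraph.connected_iff, and_comm]
  constructor
  · rintro ⟨h, ⟨v, _⟩⟩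
    refine ⟨fun u v => ?_, ⟨v⟩⟩
    rw [SimpleGraph.reachable_iff_reflTransGen]
    exact h u trivial v trivial
  · rintro ⟨h, ⟨v⟩⟩
    refine ⟨fun u _ v _ => ?_, ⟨v, trivial⟩⟩
    have := h u v
    rw [SimpleGraph.reachable_iff_reflTransGen] at this
    exact this

lemma wedge_connected {V U : Type} {G : SimpleGraph V} {x : V} {R : SimpleGraph (Option U)}
    (hG : G.Connected) (hR : R.Connected) : (wedge G x R).Connected := by
  rw [← conn_top, conn_wedge _ (show Sum.inl x ∈ (⊤ : (wedge G x R).Subgraph).verts from trivial)]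
  have e1 : left (⊤ : (wedge G x R).Subgraph) = ⊤ := rfl
  have e2 : right (⊤ : (wedge G x R).Subgraph) = ⊤ := by
    refine SimpleGraph.Subgraph.ext ?_ ?_
    · rfl
    · funext o o'
      apply propext
      constructor
      · intro h
        exact jU_adj _ _ h
      · intro h
        rcases o with _ | u <;> rcases o' with _ | w
        · exact absurd rfl h.ne
        · exact ⟨rfl, h⟩
        · exact ⟨rfl, h.symm⟩
        · exact h
  rw [e1, e2, conn_top, conn_top]
  exact ⟨hG, hR⟩

lemma cyc_connected {m : ℕ} (hm : 2 ≤ m) : (cyc m).Connected := (conn_top _).1 (top_conn hm)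

lemma star_connected (U : Type) : (star U).Connected := by
  rw [← conn_top]
  refine conn_of_root _ none trivial ?_
  intro u _
  rcases u with _ | u
  · exact ReflTransGen.refl
  · exact ReflTransGen.single (Or.inr ⟨by simp, rfl⟩)

end connected

/-- **Q1 is false.** There is a finite connected graph whose mean subtree order is smaller than the
average size of its connected vertex sets. -/
theorem result : ∃ (V : Type) (_ : Fintype V) (G : SimpleGraph V),
    G.Connected ∧ meanSubtreeOrder G < averageConnectedSet G := by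
  have h1 := G3_neg good_tree starFam_tree (G1 8999 xx) (Sum.inl none) (Sum.inl cc) 6756 core_tree
  have h2 := G3_pos good_ind starFam_ind (G1 8999 xx) (Sum.inl none) (Sum.inl cc) 6756 core_ind
  obtain ⟨A, hA1, hA2⟩ := (h1.and h2).exists
  refine ⟨_, inferInstance, G3 (G1 8999 xx) (Sum.inl none) (Sum.inl cc) A, ?_, ?_⟩
  · exact wedge_connected (wedge_connected (wedge_connected (cyc_connected (by norm_num))
      (cyc_connected le_rfl)) (star_connected _)) (star_connected _)
  · exact (mean_lt _ _ hA1).trans (lt_av _ _ hA2)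

end Pool.Agent.Results.MP_589357_co.MeanSubtreeOrderSmaller
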